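import Pool.Agent.N545.PF.FFD
import Pool.Agent.N644.PQ.HunC

/-!
# Trace forms modulo an unramified prime

Project PF (helper783), part TFQ (helper545).
-/

set_option autoImplicit false
set_option linter.all false

open Matrix NumberField IsDedekindDomain Module

namespace Pool.Agent.N545.PF

section disc

variable {L : Type} [Field L] [NumberField L] {q : ℕ}

/-- An unramified prime does not divide the discriminant. -/
theorem not_dvd_discr (hq : q.Prime)
    (h : ∀ 𝔓 : HeightOneSpectrum (𝓞 L), (q : 𝓞 L) ∉ 𝔓.asIdeal ^ 2) :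
    ¬ (q : ℤ) ∣ NumberField.discr L := by
  have hqp : Prime (q : ℤ) := Nat.prime_iff_prime_int.1 hq
  rw [NumberField.not_dvd_discr_iff_forall_mem L (𝓞 L) hqp]
  intro P hP hqP
  have hqP' : ((q : ℕ) : 𝓞 L) ∈ P := by simpa using hqP
  have hPl : P.LiesOver (Ideal.span {(q : ℤ)}) := (Ideal.liesOver_span_iff hP.ne_top hqp).mpr hqP
  have hPb : P ≠ ⊥ := by
    rintro rfl
    rw [Ideal.mem_bot] at hqP'
    exact hq.ne_zero (by exact_mod_cast hqP')
  have hle : Ideal.map (algebraMap ℤ (𝓞 L)) (Ideal.span {(q : ℤ)}) ≤ P := by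
    rw [Ideal.map_span, Set.image_singleton, Ideal.span_singleton_le_iff_mem]
    exact hqP
  have he : Ideal.ramificationIdx' (Ideal.span {(q : ℤ)}) P = 1 := by
    by_contra hne
    have h1 := (Ideal.ramificationIdx'_ne_one_iff hle).1 hne
    rw [Ideal.map_span, Set.image_singleton, Ideal.span_singleton_le_iff_mem] at h1
    exact h ⟨P, hP, hPb⟩ (by simpa using h1)
  have hmaxq : (Ideal.span {(q : ℤ)}).IsMaximal :=
    PrincipalIdealRing.isMaximal_of_irreducible hqp.irreducible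
  let := Localization.AtPrime.algebraOfLiesOver (Ideal.span {(q : ℤ)}) P
  refine (Algebra.isUnramifiedAt_iff_map_eq ℤ (Ideal.span {(q : ℤ)}) P).mpr
    ⟨?_, (Ideal.IsDedekindDomain.ramificationIdx'_eq_one_iff hPb hle).1 he⟩
  infer_instance

/-- The trace form is nondegenerate modulo `q`. -/
theorem nondeg (hq : q.Prime)
    (h : ∀ 𝔓 : HeightOneSpectrum (𝓞 L), (q : 𝓞 L) ∉ 𝔓.asIdeal ^ 2) (a : 𝓞 L)
    (ha : ∀ w : 𝓞 L, (q : ℤ) ∣ Algebra.trace ℤ (𝓞 L) (a * w)) : a ∈ Ideal.span {(q : 𝓞 L)} := by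
  classical
  have hqp : Prime (q : ℤ) := Nat.prime_iff_prime_int.1 hq
  have hd := not_dvd_discr hq h
  set β := RingOfIntegers.basis L with hβ
  rw [← NumberField.discr_eq_discr (K := L) (b := β)] at hd
  set M := Algebra.traceMatrix ℤ β with hM
  have hd' : ¬ (q : ℤ) ∣ M.det := hd
  have h1 : ∀ j, (q : ℤ) ∣ ((fun i => β.repr a i) ᵥ* M) j := by
    intro j
    have e1 : ((fun i => β.repr a i) ᵥ* M) j = Algebra.trace ℤ (𝓞 L) (a * β j) := by
      conv_rhs => rw [← β.sum_repr a, Finset.sum_mul, map_sum]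
      refine Finset.sum_congr rfl fun i _ => ?_
      rw [smul_mul_assoc, map_smul, smul_eq_mul]
      show β.repr a i * Algebra.traceMatrix ℤ β i j = _
      rw [Algebra.traceMatrix_apply, Algebra.traceForm_apply]
    rw [e1]
    exact ha _
  have h2 : ∀ i, (q : ℤ) ∣ β.repr a i := by
    intro i
    have e1 : (((fun i => β.repr a i) ᵥ* M) ᵥ* M.adjugate) i = M.det * β.repr a i := by
      rw [Matrix.vecMul_vecMul, Matrix.mul_adjugate, Matrix.vecMul_smul, Matrix.vecMul_one]
      rfl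
    have e2 : (q : ℤ) ∣ M.det * β.repr a i := by
      rw [← e1]
      exact Finset.dvd_sum fun j _ => (h1 j).mul_right _
    exact (hqp.dvd_or_dvd e2).resolve_left hd'
  choose c hc using h2
  rw [Ideal.mem_span_singleton]
  refine ⟨∑ i, c i • β i, ?_⟩
  conv_lhs => rw [← β.sum_repr a]
  rw [Finset.mul_sum]
  refine Finset.sum_congr rfl fun i _ => ?_
  rw [hc i, mul_smul, zsmul_eq_mul, zsmul_eq_mul]
  push_cast
  rfl

/-- The trace of an element divisible by `q`. -/
theorem trace_dvd {a : 𝓞 L} (ha : a ∈ Ideal.span {(q : 𝓞 L)}) :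
    (q : ℤ) ∣ Algebra.trace ℤ (𝓞 L) a := by
  obtain ⟨b, rfl⟩ := Ideal.mem_span_singleton.1 ha
  refine ⟨Algebra.trace ℤ (𝓞 L) b, ?_⟩
  have e1 : (q : 𝓞 L) * b = (q : ℤ) • b := by
    rw [zsmul_eq_mul]
    push_cast
    rfl
  rw [e1, map_smul, smul_eq_mul]

end disc

section qbasis

variable {L : Type} [Field L] [NumberField L] {q : ℕ} {κ : Type} [Fintype κ]

/-- A basis modulo `q`. -/
structure QB (q : ℕ) (w : κ → 𝓞 L) : Prop where
  span : ∀ a : 𝓞 L, ∃ α : κ → ℤ, a - ∑ i, α i • w i ∈ Ideal.span {(q : 𝓞 L)}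
  ind : ∀ α : κ → ℤ, ∑ i, α i • w i ∈ Ideal.span {(q : 𝓞 L)} → ∀ i, (q : ℤ) ∣ α i

variable {w : κ → 𝓞 L}

/-- Nakayama's lemma. -/
theorem QB.nak (hw : QB q w) : ∃ m : ℤ, (q : ℤ) ∣ m - 1 ∧
    ∀ a : 𝓞 L, ∃ α : κ → ℤ, m • a = ∑ i, α i • w i := by
  obtain ⟨m, hm, hm2⟩ := Submodule.exists_sub_one_mem_and_smul_eq_zero_of_fg_of_le_smul
    (Ideal.span {(q : ℤ)}) (⊤ : Submodule ℤ (𝓞 L ⧸ Submodule.span ℤ (Set.range w)))
    Module.Finite.fg_top (by
      rintro x -
      obtain ⟨a, rfl⟩ := Submodule.Quotient.mk_surjective _ x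
      obtain ⟨α, hα⟩ := hw.span a
      obtain ⟨b, hb⟩ := Ideal.mem_span_singleton.1 hα
      have e1 : (Submodule.Quotient.mk a : 𝓞 L ⧸ Submodule.span ℤ (Set.range w)) =
          (q : ℤ) • Submodule.Quotient.mk b := by
        rw [← Submodule.Quotient.mk_smul, Submodule.Quotient.eq]
        have e2 : a - (q : ℤ) • b = ∑ i, α i • w i := by
          rw [zsmul_eq_mul]
          push_cast
          linear_combination hb
        rw [e2]
        exact Submodule.sum_mem _ fun i _ =>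
          Submodule.smul_mem _ _ (Submodule.subset_span ⟨i, rfl⟩)
      rw [e1]
      exact Submodule.smul_mem_smul (Ideal.mem_span_singleton_self _) trivial)
  refine ⟨m, Ideal.mem_span_singleton.1 hm, fun a => ?_⟩
  have h1 := hm2 (Submodule.Quotient.mk a) trivial
  rw [← Submodule.Quotient.mk_smul, Submodule.Quotient.mk_eq_zero,
    Submodule.mem_span_range_iff_exists_fun] at h1
  obtain ⟨α, hα⟩ := h1
  exact ⟨α, hα.symm⟩

theorem QB.ind0 (hq : q.Prime) (hw : QB q w) (α : κ → ℤ) (h : ∑ i, α i • w i = 0) : α = 0 := by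
  have hq0 : (q : ℤ) ≠ 0 := by exact_mod_cast hq.ne_zero
  have key : ∀ N : ℕ, ∀ α : κ → ℤ, ∑ i, α i • w i = 0 → ∀ i, (q : ℤ) ^ N ∣ α i := by
    intro N
    induction N with
    | zero => intro α _ i; simp
    | succ N ih =>
      intro α h i
      have h1 := hw.ind α (by rw [h]; exact Ideal.zero_mem _)
      choose γ hγ using h1
      have h2 : ∑ i, γ i • w i = 0 := by
        have e1 : (q : ℤ) • ∑ i, γ i • w i = 0 := by
          rw [Finset.smul_sum, ← h]
          refine Finset.sum_congr rfl fun i _ => ?_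
          rw [hγ i, mul_smul]
        exact (smul_eq_zero.1 e1).resolve_left hq0
      obtain ⟨δ, hδ⟩ := ih γ h2 i
      exact ⟨δ, by rw [hγ i, hδ]; ring⟩
  funext i
  by_contra hne
  have hne' : α i ≠ 0 := hne
  have h1 := Int.le_of_dvd (abs_pos.2 hne') ((dvd_abs _ _).2 (key (α i).natAbs α h i))
  have h2 : (α i).natAbs < q ^ (α i).natAbs := Nat.lt_pow_self hq.one_lt
  rw [Int.abs_eq_natAbs] at h1
  have h3 : ((q ^ (α i).natAbs : ℕ) : ℤ) ≤ ((α i).natAbs : ℤ) := by
    rw [Nat.cast_pow]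
    exact h1
  omega

/-- The basis of the field. -/
theorem QB.basis (hq : q.Prime) (hw : QB q w) :
    ∃ B : Module.Basis κ ℚ L, ∀ i, B i = (w i : L) := by
  obtain ⟨m, hm, hm2⟩ := hw.nak
  have hm0 : m ≠ 0 := by
    rintro rfl
    have h1 : (q : ℤ) ∣ 1 := by
      have := (dvd_neg (a := (q : ℤ)) (b := 1)).1 (by simpa using hm)
      exact this
    have h2 := Int.le_of_dvd one_pos h1
    have := hq.two_le
    omega
  have hli : LinearIndependent ℚ fun i => (w i : L) := by
    rw [← LinearIndependent.iff_fractionRing ℤ ℚ, Fintype.linearIndependent_iff]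
    intro α hα
    have h1 : ∑ i, α i • w i = 0 := by
      apply RingOfIntegers.coe_injective
      rw [map_sum, map_zero, ← hα]
      refine Finset.sum_congr rfl fun i _ => ?_
      rw [map_zsmul]
    have h2 := hw.ind0 hq α h1
    exact fun i => congrFun h2 i
  have hsp : ⊤ ≤ Submodule.span ℚ (Set.range fun i => (w i : L)) := by
    rintro x -
    obtain ⟨N, hN, z, hz⟩ : ∃ N : ℤ, N ≠ 0 ∧ ∃ z : 𝓞 L, (z : L) = N * x := by
      have h1 : IsAlgebraic ℤ x := by
        have h2 : IsAlgebraic ℚ x := Algebra.IsAlgebraic.isAlgebraic x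
        exact (IsFractionRing.isAlgebraic_iff ℤ ℚ L).2 h2
      obtain ⟨N, hN, hNa⟩ := h1.exists_integral_multiple
      refine ⟨N, hN, ⟨⟨N • x, hNa⟩, ?_⟩⟩
      show N • x = (N : L) * x
      rw [zsmul_eq_mul]
    obtain ⟨α, hα⟩ := hm2 z
    have h3 : (m : L) * (N * x) = ∑ i, (α i : L) * (w i : L) := by
      have := congrArg (fun y : 𝓞 L => (y : L)) hα
      simp only [map_zsmul, map_sum, zsmul_eq_mul] at this
      rw [← hz]
      simpa [map_mul, map_sum, zsmul_eq_mul] using this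
    have hmN : (m : L) * N ≠ 0 := mul_ne_zero (by exact_mod_cast hm0) (by exact_mod_cast hN)
    have h4 : x = ∑ i, ((α i : ℚ) / (m * N)) • (w i : L) := by
      have e1 : ∀ i, ((α i : ℚ) / (m * N)) • (w i : L) = ((m : L) * N)⁻¹ * ((α i : L) * (w i : L)) := by
        intro i
        rw [Algebra.smul_def]
        simp only [map_div₀, map_mul, map_intCast]
        field_simp
      rw [Finset.sum_congr rfl fun i _ => e1 i, ← Finset.mul_sum, ← h3]
      field_simp
    rw [h4]
    exact Submodule.sum_mem _ fun i _ => Submodule.smul_mem _ _ (Submodule.subset_span ⟨i, rfl⟩)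
  exact ⟨Module.Basis.mk hli hsp, fun i => by rw [Module.Basis.mk_apply]⟩

/-- The trace in terms of a basis modulo `q`. -/
theorem QB.trace (hq : q.Prime) (hw : QB q w) {m : ℤ} (a : 𝓞 L) (α : κ → κ → ℤ)
    (h : ∀ j, m • (a * w j) = ∑ i, α i j • w i) :
    m * Algebra.trace ℤ (𝓞 L) a = ∑ j, α j j := by
  classical
  obtain ⟨B, hB⟩ := hw.basis hq
  have h1 : ((m * Algebra.trace ℤ (𝓞 L) a : ℤ) : ℚ) = ((∑ j, α j j : ℤ) : ℚ) := by
    push_cast
    rw [Algebra.coe_trace_int, Algebra.trace_eq_matrix_trace B, Matrix.trace, Finset.mul_sum]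
    refine Finset.sum_congr rfl fun j _ => ?_
    rw [Matrix.diag_apply, Algebra.leftMulMatrix_eq_repr_mul]
    have e1 : (m : ℚ) • ((a : L) * B j) = ∑ i, (α i j : ℚ) • B i := by
      have h2 := congrArg (fun y : 𝓞 L => (y : L)) (h j)
      simp only [map_zsmul, map_sum, map_mul] at h2
      rw [hB]
      have e3 : ∀ (n : ℤ) (x : L), (n : ℚ) • x = n • x := by
        intro n x
        rw [Algebra.smul_def, zsmul_eq_mul, map_intCast]
      rw [e3]
      have e4 : ∑ i, (α i j : ℚ) • B i = ∑ i, α i j • (w i : L) :=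
        Finset.sum_congr rfl fun i _ => by rw [e3, hB]
      rw [e4]
      exact h2
    have e2 := congrArg (fun y => B.repr y j) e1
    simp only [map_smul, map_sum, Finsupp.smul_apply, Finsupp.finsetSum_apply, B.repr_self,
      smul_eq_mul, Finsupp.single_apply, mul_ite, mul_one, mul_zero, Finset.sum_ite_eq',
      Finset.mem_univ, if_true] at e2
    simpa using e2
  exact_mod_cast h1

end qbasis

end Pool.Agent.N545.PF
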