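import Pool.Agent.N783.PF.Loc
import Pool.Agent.N434.PJ.HP

/-!
# The discriminant of an extension of finite fields of even degree is not a square

Project PF (helper783), part FFD (helper545).
-/

set_option autoImplicit false
set_option linter.all false

open Matrix

namespace Pool.Agent.N545.PF

theorem fin_k (k K : Type) [Field k] [Field K] [Finite K] [Algebra k K] : Finite k :=
  Finite.of_injective _ (algebraMap k K).injective

section ff

variable {k K : Type} [Field k] [Field K] [Finite K] [Algebra k K]

/-- the matrix of the conjugates -/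
noncomputable def cj (k : Type) {K : Type} [Field k] [Field K] {n : ℕ} (b : Fin n → K) :
    Matrix (Fin n) (Fin n) K :=
  Matrix.of fun i j => b j ^ (Nat.card k ^ (i : ℕ))

theorem cj_gram {n : ℕ} (b : Module.Basis (Fin n) k K) :
    (cj k b)ᵀ * cj k b = (Matrix.of fun i j => Algebra.trace k K (b i * b j)).map
      (algebraMap k K) := by
  have hn : Module.finrank k K = n := by
    rw [Module.finrank_eq_card_basis b, Fintype.card_fin]
  ext i j
  rw [Matrix.mul_apply, Matrix.map_apply, Matrix.of_apply, FiniteField.algebraMap_trace_eq_sum_pow,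
    hn, Finset.sum_range]
  refine Finset.sum_congr rfl fun l _ => ?_
  rw [Matrix.transpose_apply, cj, Matrix.of_apply, Matrix.of_apply, mul_pow]

/-- The Frobenius map permutes the rows cyclically. -/
theorem cj_frob {n : ℕ} (b : Module.Basis (Fin (n + 1)) k K) (φ : K →+* K)
    (hφ : ∀ x, φ x = x ^ Nat.card k) :
    (cj k b).map φ = (cj k b).submatrix (finRotate (n + 1)) id := by
  have hk : Finite k := fin_k k K
  have hn : Module.finrank k K = n + 1 := by
    rw [Module.finrank_eq_card_basis b, Fintype.card_fin]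
  have hcard : Nat.card K = Nat.card k ^ (n + 1) := by
    rw [← hn]
    exact Module.natCard_eq_pow_finrank
  ext i j
  rw [Matrix.map_apply, Matrix.submatrix_apply, cj, Matrix.of_apply, Matrix.of_apply, id, hφ,
    ← pow_mul, ← pow_succ]
  rcases Fin.eq_castSucc_or_eq_last i with ⟨i, rfl⟩ | rfl
  · rw [finRotate_of_lt (by simp)]
  · rw [finRotate_last, Fin.val_last, ← hcard, Fin.val_zero, pow_zero, pow_one]
    cases nonempty_fintype K
    rw [Nat.card_eq_fintype_card, FiniteField.pow_card]

/-- The discriminant is not a square. -/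
theorem discr_nsq (m : ℕ) (hm : 0 < m) (b : Module.Basis (Fin (2 * m)) k K) (h2 : (2 : k) ≠ 0) :
    (Matrix.of fun i j => Algebra.trace k K (b i * b j)).det ≠ 0 ∧
      ¬ IsSquare (Matrix.of fun i j => Algebra.trace k K (b i * b j)).det := by
  have hk : Finite k := fin_k k K
  have hfd : FiniteDimensional k K := Module.Finite.of_finite
  have h2K : (2 : K) ≠ 0 := by
    intro h
    apply h2
    apply (algebraMap k K).injective
    rw [map_ofNat, map_zero]
    exact h
  have h0 : (Matrix.of fun i j => Algebra.trace k K (b i * b j)).det ≠ 0 := by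
    have h1 := Algebra.discr_not_zero_of_basis k b
    exact h1
  refine ⟨h0, ?_⟩
  obtain ⟨n, hn⟩ : ∃ n, 2 * m = n + 1 := ⟨2 * m - 1, by omega⟩
  obtain ⟨φ, hφ⟩ : ∃ φ : K →+* K, (∀ x, φ x = x ^ Nat.card k) ∧
      ∀ x : k, φ (algebraMap k K x) = algebraMap k K x := by
    cases nonempty_fintype k
    refine ⟨(FiniteField.frobeniusAlgHom k K : K →+* K), fun x => ?_, fun x => ?_⟩
    · rw [Nat.card_eq_fintype_card]
      exact FiniteField.frobeniusAlgHom_apply k K x
    · exact (FiniteField.frobeniusAlgHom k K).commutes x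
  revert b
  rw [hn]
  intro b h0
  have hg := congrArg Matrix.det (cj_gram b)
  rw [Matrix.det_mul, Matrix.det_transpose] at hg
  have hg' : (cj k b).det * (cj k b).det =
      algebraMap k K (Matrix.of fun i j => Algebra.trace k K (b i * b j)).det := by
    rw [hg, RingHom.map_det]
    rfl
  have hf := congrArg Matrix.det (cj_frob b φ hφ.1)
  rw [Matrix.det_permute, sign_finRotate, Nat.add_sub_cancel] at hf
  have hodd : Odd n := by
    rw [← Nat.not_even_iff_odd]
    rintro ⟨r, hr⟩
    omega
  have hs : (((-1 : ℤˣ) ^ n : ℤˣ) : ℤ) = -1 := by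
    rw [hodd.neg_one_pow]
    rfl
  have hf' : φ (cj k b).det = -(cj k b).det := by
    rw [RingHom.map_det]
    have e1 : φ.mapMatrix (cj k b) = (cj k b).map φ := rfl
    rw [e1, hf, hs]
    simp
  rintro ⟨d, hd⟩
  rw [hd, map_mul] at hg'
  have h3 : (cj k b).det = algebraMap k K d ∨ (cj k b).det = -algebraMap k K d :=
    mul_self_eq_mul_self_iff.1 hg'
  have h4 : φ (cj k b).det = (cj k b).det := by
    rcases h3 with h | h <;> rw [h]
    · exact hφ.2 d
    · rw [map_neg, hφ.2 d]
  have h5 : (cj k b).det = 0 := by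
    have h6 : (2 : K) * (cj k b).det = 0 := by
      rw [h4] at hf'
      linear_combination hf'
    exact (mul_eq_zero.1 h6).resolve_left h2K
  have h7 : algebraMap k K d = 0 := by
    rcases h3 with h | h
    · rw [← h, h5]
    · rw [h5] at h
      exact (neg_eq_zero.1 h.symm)
  have h8 : d = 0 := (map_eq_zero (algebraMap k K)).1 h7
  exact h0 (by rw [hd, h8, mul_zero])

end ff

/-- The form `Tr(c x y)`. -/
theorem gram_mul {R S : Type} [CommRing R] [CommRing S] [Algebra R S] {ι : Type} [Fintype ι]
    [DecidableEq ι] (b : Module.Basis ι R S) (c : S) :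
    (Matrix.of fun i j => Algebra.trace R S (c * b i * b j)) =
      (Algebra.leftMulMatrix b c)ᵀ * Matrix.of fun i j => Algebra.trace R S (b i * b j) := by
  ext i j
  rw [Matrix.mul_apply, Matrix.of_apply]
  have h1 : c * b i = ∑ l, Algebra.leftMulMatrix b c l i • b l := by
    rw [← b.sum_repr (c * b i)]
    refine Finset.sum_congr rfl fun l _ => ?_
    rw [Algebra.leftMulMatrix_eq_repr_mul]
  rw [h1, Finset.sum_mul, map_sum]
  refine Finset.sum_congr rfl fun l _ => ?_
  rw [smul_mul_assoc, map_smul, smul_eq_mul]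
  rfl

theorem norm_sq_iff {k K : Type} [Field k] [Field K] [Finite K] [Algebra k K]
    (h2 : (2 : k) ≠ 0) (c : K) (hc : c ≠ 0) : IsSquare (Algebra.norm k c) ↔ IsSquare c := by
  have hk : Finite k := fin_k k K
  exact Pool.Agent.N434.PJ.norm_isSquare h2 c hc

theorem ffd : Pool.Agent.N783.PF.S_FFD := by
  classical
  intro k K _ _ _ _ m b c hm h2 hc
  have hk : Finite k := fin_k k K
  cases nonempty_fintype k
  have hfd : FiniteDimensional k K := Module.Finite.of_finite
  obtain ⟨h0, hns⟩ := discr_nsq m hm b h2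
  rw [gram_mul, Matrix.det_mul, Matrix.det_transpose, ← Algebra.norm_eq_matrix_det]
  have hn0 : Algebra.norm k c ≠ 0 := by rwa [Ne, Algebra.norm_eq_zero_iff]
  refine ⟨mul_ne_zero hn0 h0, ?_⟩
  rw [← norm_sq_iff h2 c hc]
  set D := (Matrix.of fun i j => Algebra.trace k K (b i * b j)).det with hD
  have hN : ∀ x : k, x ≠ 0 → (IsSquare x ↔ quadraticChar k x = 1) :=
    fun x hx => (quadraticChar_one_iff_isSquare hx).symm
  rw [hN _ (mul_ne_zero hn0 h0), hN _ hn0, map_mul]
  rw [hN _ h0] at hns
  have h3 := (quadraticChar_dichotomy h0).resolve_left hns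
  rw [h3]
  rcases quadraticChar_dichotomy hn0 with h | h <;> rw [h] <;> norm_num

end Pool.Agent.N545.PF
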