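import Pool.Agent.N783.PF.Loc
import Pool.Agent.N507.PQ.Hs
import Pool.Agent.N507.PQ.Diag

/-!
# The Hasse invariant of an orthogonal sum of a unimodular and a scaled unimodular form

Project PF (helper783), part TFQ (helper545).
-/

set_option autoImplicit false
set_option linter.all false

open Matrix

namespace Pool.Agent.N545.PF

open Pool.Agent.N202.M4 (hasse hil IsSymbol)
open Pool.Agent.N783.PF (HV)
open Pool.Agent.N446.M4 (sym_)
open Pool.Agent.N507.PQ (hasse_units hasse_scaled prod_ne unit_iff hil_units hil_p hil_pp)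

theorem hasse_append {F : Type} (h : F → F → ℤ) (l₁ l₂ : List F) :
    hasse h (l₁ ++ l₂) =
      hasse h l₁ * hasse h l₂ * (l₁.map fun x => (l₂.map (h x)).prod).prod := by
  induction l₁ with
  | nil => simp [hasse]
  | cons a l ih =>
    rw [List.cons_append, hasse, hasse, ih, List.map_append, List.prod_append, List.map_cons,
      List.prod_cons]
    ring

/-- The form `T M Tᵀ`, with a change of the index type. -/
theorem hv_cong {E : Type} [Field E] {ι κ : Type} [Fintype ι] [Fintype κ] {M : Matrix κ κ E}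
    {ε : ℤ} (h : HV M ε) (e : ι ≃ κ) (T : Matrix ι κ E) : HV (T * M * Tᵀ) ε := by
  obtain ⟨n, φ, a, T0, ha, hT, hε⟩ := h
  refine ⟨n, φ.trans e.symm, a, T.submatrix (φ.trans e.symm) φ * T0, ha, ?_, hε⟩
  have e1 : T.submatrix (φ.trans e.symm) φ * (M.submatrix φ φ) *
      (T.submatrix (φ.trans e.symm) φ)ᵀ = (T * M * Tᵀ).submatrix (φ.trans e.symm)
        (φ.trans e.symm) := by
    rw [Matrix.submatrix_mul_equiv, Matrix.transpose_submatrix, Matrix.submatrix_mul_equiv]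
  rw [← e1, ← hT, Matrix.transpose_mul]
  simp only [Matrix.mul_assoc]

section sym

variable {F : Type} [Field F] {h : F → F → ℤ}

theorem hasse_two (hs : IsSymbol h) {q : F} (hq : q ≠ 0) (hqq : h q q = 1)
    (us ws : List F) (hne : ∀ u ∈ us, u ≠ 0) (hne' : ∀ u ∈ ws, u ≠ 0)
    (hun : ∀ u ∈ us, ∀ v ∈ us, h u v = 1)
    (hwn : ∀ u ∈ ws, ∀ v ∈ ws, h u v = 1) (huw : ∀ u ∈ us, ∀ v ∈ ws, h u v = 1)
    (hev : Even us.length) :
    hasse h ((us.map fun x => q * x) ++ ws) = h q us.prod := by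
  have h1 := hasse_scaled hs hq hqq us hne hun
  rw [hasse_append, hasse_units ws hwn, mul_one]
  have e1 : ((us.map fun x => q * x).map fun x => (ws.map (h x)).prod).prod = 1 := by
    rw [List.map_map]
    have e2 : us.map ((fun x => (ws.map (h x)).prod) ∘ fun x => q * x) =
        us.map fun _ => (ws.map (h q)).prod := by
      refine List.map_congr_left fun v hv => ?_
      show (ws.map (h (q * v))).prod = (ws.map (h q)).prod
      congr 1
      refine List.map_congr_left fun w hw => ?_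
      rw [hs.symm, hs.mul _ _ _ (hne' w hw) hq (hne v hv), hs.symm w q, hs.symm w v,
        huw v hv w hw, mul_one]
    rw [e2, List.map_const', List.prod_replicate]
    have e3 : (ws.map (h q)).prod = 1 ∨ (ws.map (h q)).prod = -1 := by
      rw [Pool.Agent.N424.M4.h_prod hs hq ws hne']
      exact hs.pm _ _
    rcases e3 with h2 | h2 <;> rw [h2]
    · exact one_pow _
    · exact hev.neg_one_pow
  rw [e1, mul_one]
  rcases hs.pm q us.prod with h2 | h2
  · rw [h2, mul_one, one_pow] at h1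
    rw [h1, h2]
  · rw [h2, hev.neg_one_pow] at h1
    rw [h2]
    linarith

end sym

section blocks

variable {R : Type} [CommRing R] {f r : ℕ}

/-- The Schur complement. -/
theorem schur (q : R) (A₁ C : Matrix (Fin f) (Fin f) R) (B : Matrix (Fin f) (Fin r) R)
    (U : Matrix (Fin r) (Fin r) R) (hU : U.IsSymm) (hd : IsUnit U.det)
    (hC : C = A₁ - q • (B * U⁻¹ * Bᵀ))
    (T₁ : Matrix (Fin f) (Fin f) R) (T₀ : Matrix (Fin r) (Fin r) R) (v : Fin f → R) (u : Fin r → R)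
    (hT₁ : T₁ * Matrix.diagonal v * T₁ᵀ = C) (hT₀ : T₀ * Matrix.diagonal u * T₀ᵀ = U) :
    ∃ P : Matrix (Fin f ⊕ Fin r) (Fin f ⊕ Fin r) R,
      P * Matrix.diagonal (Sum.elim (fun i => q * v i) u) * Pᵀ =
        Matrix.fromBlocks (q • A₁) (q • B) (q • Bᵀ) U := by
  have hUi : U⁻¹ * U = 1 := Matrix.nonsing_inv_mul U hd
  have hUi' : U * U⁻¹ = 1 := Matrix.mul_nonsing_inv U hd
  have hUt : (U⁻¹)ᵀ = U⁻¹ := by
    rw [Matrix.transpose_nonsing_inv, hU.eq]
  have hq : Matrix.diagonal (fun i => q * v i) = q • Matrix.diagonal v := by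
    ext i j
    rw [Matrix.smul_apply, Matrix.diagonal_apply, Matrix.diagonal_apply]
    split_ifs <;> simp
  refine ⟨Matrix.fromBlocks 1 (q • (B * U⁻¹)) 0 1 * Matrix.fromBlocks T₁ 0 0 T₀, ?_⟩
  have e1 : Matrix.fromBlocks T₁ 0 0 T₀ * Matrix.diagonal (Sum.elim (fun i => q * v i) u) *
      (Matrix.fromBlocks T₁ 0 0 T₀)ᵀ = Matrix.fromBlocks (q • C) 0 0 U := by
    rw [← Matrix.fromBlocks_diagonal, Matrix.fromBlocks_transpose, Matrix.fromBlocks_multiply,
      Matrix.fromBlocks_multiply, hq]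
    simp only [Matrix.transpose_zero, Matrix.mul_zero, Matrix.zero_mul, add_zero, zero_add,
      Matrix.mul_smul, Matrix.smul_mul, smul_zero]
    rw [hT₁, hT₀]
  rw [Matrix.transpose_mul]
  calc Matrix.fromBlocks 1 (q • (B * U⁻¹)) 0 1 * Matrix.fromBlocks T₁ 0 0 T₀ *
        Matrix.diagonal (Sum.elim (fun i => q * v i) u) *
        ((Matrix.fromBlocks T₁ 0 0 T₀)ᵀ * (Matrix.fromBlocks 1 (q • (B * U⁻¹)) 0 1)ᵀ)
      = Matrix.fromBlocks 1 (q • (B * U⁻¹)) 0 1 * (Matrix.fromBlocks T₁ 0 0 T₀ *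
        Matrix.diagonal (Sum.elim (fun i => q * v i) u) *
        (Matrix.fromBlocks T₁ 0 0 T₀)ᵀ) * (Matrix.fromBlocks 1 (q • (B * U⁻¹)) 0 1)ᵀ := by
        simp only [Matrix.mul_assoc]
    _ = _ := by
        rw [e1, Matrix.fromBlocks_transpose, Matrix.fromBlocks_multiply,
          Matrix.fromBlocks_multiply]
        simp only [Matrix.transpose_zero, Matrix.transpose_one, Matrix.mul_zero, Matrix.zero_mul,
          add_zero, zero_add, Matrix.mul_one, Matrix.one_mul, Matrix.transpose_smul,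
          Matrix.transpose_mul, hUt, Matrix.mul_smul, Matrix.smul_mul, smul_zero]
        have a1 : B * U⁻¹ * U = B := by rw [Matrix.mul_assoc, hUi, Matrix.mul_one]
        have a2 : U * (U⁻¹ * Bᵀ) = Bᵀ := by rw [← Matrix.mul_assoc, hUi', Matrix.one_mul]
        have a3 : B * U⁻¹ * U * (U⁻¹ * Bᵀ) = B * U⁻¹ * Bᵀ := by
          rw [a1, Matrix.mul_assoc]
        rw [a1, a2, hC, ← Matrix.mul_assoc]
        congr 1
        rw [smul_sub, sub_add_cancel]

end blocks

section pad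

variable {q : ℕ} [hq : Fact q.Prime]

theorem isUnit_int {m : ℤ} (hm : ¬ (q : ℤ) ∣ m) : IsUnit (m : ℤ_[q]) := by
  rw [unit_iff, Pool.Agent.W335.BMX.toZMod_int, Ne, ZMod.intCast_zmod_eq_zero_iff_dvd]
  exact hm

theorem hv_block (hq4 : q % 4 = 1) {f r : ℕ} (hf : Even f)
    (V₁ : Matrix (Fin f) (Fin f) ℤ) (B : Matrix (Fin f) (Fin r) ℤ) (V₀ : Matrix (Fin r) (Fin r) ℤ)
    (h₁ : V₁.IsSymm) (h₀ : V₀.IsSymm) (d₁ : ¬ (q : ℤ) ∣ V₁.det) (d₀ : ¬ (q : ℤ) ∣ V₀.det) :
    HV ((Matrix.fromBlocks ((q : ℤ) • V₁) ((q : ℤ) • B) ((q : ℤ) • Bᵀ) V₀).map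
      (Int.castRingHom ℚ_[q])) (if IsSquare ((V₁.det : ℤ) : ZMod q) then 1 else -1) := by
  have hq2 : q ≠ 2 := by rintro rfl; norm_num at hq4
  have hsym : IsSymbol (hil ℚ_[q]) := sym_ q
  set ι : ℤ →+* ℤ_[q] := Int.castRingHom ℤ_[q] with hι
  set A₁ := V₁.map ι with hA₁
  set U := V₀.map ι with hU
  set Bz := B.map ι with hBz
  have h2 : IsUnit (2 : ℤ_[q]) := by
    have := isUnit_int (q := q) (m := 2) (Pool.Agent.W335.BMX.two_not_dvd hq2)
    exact_mod_cast this
  have hUs : U.IsSymm := h₀.map ι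
  have hA₁s : A₁.IsSymm := h₁.map ι
  have hUd : IsUnit U.det := by
    have e1 : U.det = ((V₀.det : ℤ) : ℤ_[q]) := (ι.map_det V₀).symm
    rw [e1]
    exact isUnit_int d₀
  have hUt : (U⁻¹)ᵀ = U⁻¹ := by
    rw [Matrix.transpose_nonsing_inv, hUs.eq]
  obtain ⟨C, hC⟩ : ∃ C, C = A₁ - (q : ℤ_[q]) • (Bz * U⁻¹ * Bzᵀ) := ⟨_, rfl⟩
  have hCs : C.IsSymm := by
    rw [Matrix.IsSymm, hC, Matrix.transpose_sub, Matrix.transpose_smul, Matrix.transpose_mul,
      Matrix.transpose_mul, Matrix.transpose_transpose, hUt, hA₁s.eq, Matrix.mul_assoc]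
  have hCz : PadicInt.toZMod C.det = ((V₁.det : ℤ) : ZMod q) := by
    have e1 : PadicInt.toZMod C.det = (PadicInt.toZMod.mapMatrix C).det :=
      RingHom.map_det _ _
    have e2 : PadicInt.toZMod.mapMatrix C = (Int.castRingHom (ZMod q)).mapMatrix V₁ := by
      ext i j
      have e3 : PadicInt.toZMod (q : ℤ_[q]) = 0 := by
        rw [map_natCast, ZMod.natCast_self]
      rw [RingHom.mapMatrix_apply, Matrix.map_apply, hC, Matrix.sub_apply, Matrix.smul_apply,
        smul_eq_mul, map_sub, map_mul, e3, zero_mul, sub_zero]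
      exact Pool.Agent.W335.BMX.toZMod_int _
    rw [e1, e2, ← RingHom.map_det]
    rfl
  have hCd : IsUnit C.det := by
    rw [unit_iff, hCz, Ne, ZMod.intCast_zmod_eq_zero_iff_dvd]
    exact d₁
  obtain ⟨T₁, v, hT₁, hv, hTv⟩ := Pool.Agent.N507.PQ.diagonalize h2 f C hCs hCd
  obtain ⟨T₀, u, hT₀, hu, hTu⟩ := Pool.Agent.N507.PQ.diagonalize h2 r U hUs hUd
  obtain ⟨P, hP⟩ := schur (q : ℤ_[q]) A₁ C Bz U hUs hUd hC T₁ T₀ v u hTv hTu
  have hM : (Matrix.fromBlocks ((q : ℤ) • V₁) ((q : ℤ) • B) ((q : ℤ) • Bᵀ) V₀).map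
      (Int.castRingHom ℚ_[q]) = (Matrix.fromBlocks ((q : ℤ_[q]) • A₁) ((q : ℤ_[q]) • Bz)
        ((q : ℤ_[q]) • Bzᵀ) U).map (algebraMap ℤ_[q] ℚ_[q]) := by
    ext i j
    rcases i with i | i <;> rcases j with j | j
    · show ((((q : ℤ) * V₁ i j : ℤ)) : ℚ_[q]) =
        ((((q : ℤ_[q]) * (V₁ i j : ℤ_[q])) : ℤ_[q]) : ℚ_[q])
      push_cast
      rfl
    · show ((((q : ℤ) * B i j : ℤ)) : ℚ_[q]) =
        ((((q : ℤ_[q]) * (B i j : ℤ_[q])) : ℤ_[q]) : ℚ_[q])
      push_cast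
      rfl
    · show ((((q : ℤ) * B j i : ℤ)) : ℚ_[q]) =
        ((((q : ℤ_[q]) * (B j i : ℤ_[q])) : ℤ_[q]) : ℚ_[q])
      push_cast
      rfl
    · show ((V₀ i j : ℤ) : ℚ_[q]) = (((V₀ i j : ℤ_[q])) : ℚ_[q])
      push_cast
      rfl
  rw [hM, ← hP]
  set a : Fin f ⊕ Fin r → ℚ_[q] := Sum.elim (fun i => (q : ℚ_[q]) * (v i : ℚ_[q]))
    (fun i => (u i : ℚ_[q])) with ha
  have hmap : (P * Matrix.diagonal (Sum.elim (fun i => (q : ℤ_[q]) * v i) u) * Pᵀ).map
      (algebraMap ℤ_[q] ℚ_[q]) = P.map (algebraMap ℤ_[q] ℚ_[q]) * Matrix.diagonal a *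
        (P.map (algebraMap ℤ_[q] ℚ_[q]))ᵀ := by
    rw [Matrix.map_mul, Matrix.map_mul, Matrix.diagonal_map (map_zero _), Matrix.transpose_map]
    congr 3
    funext i
    rcases i with i | i <;> simp [ha] <;> rfl
  rw [hmap]
  have hq0 : (q : ℚ_[q]) ≠ 0 := by exact_mod_cast hq.out.ne_zero
  have hvne : ∀ i, (v i : ℚ_[q]) ≠ 0 := fun i => by
    rw [Ne, PadicInt.coe_eq_zero]; exact (hv i).ne_zero
  have hune : ∀ i, (u i : ℚ_[q]) ≠ 0 := fun i => by
    rw [Ne, PadicInt.coe_eq_zero]; exact (hu i).ne_zero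
  have hdiag : HV (Matrix.diagonal a) (if IsSquare ((V₁.det : ℤ) : ZMod q) then 1 else -1) := by
    refine ⟨f + r, finSumFinEquiv.symm, fun i => a (finSumFinEquiv.symm i), 1, ?_, ?_, ?_⟩
    · intro i
      have h6 : ∀ j, a j ≠ 0 := by
        rintro (j | j)
        · exact mul_ne_zero hq0 (hvne j)
        · exact hune j
      exact h6 _
    · rw [Matrix.one_mul, Matrix.transpose_one, Matrix.mul_one]
      ext i j
      rw [Matrix.submatrix_apply, Matrix.diagonal_apply, Matrix.diagonal_apply]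
      by_cases hij : i = j
      · rw [if_pos hij, if_pos (by rw [hij])]
      · rw [if_neg hij, if_neg (fun h => hij (finSumFinEquiv.symm.injective h))]
    · have e1 : (fun i => a (finSumFinEquiv.symm i)) =
          Fin.append (fun i => (q : ℚ_[q]) * (v i : ℚ_[q])) (fun i => (u i : ℚ_[q])) := by
        funext i
        refine Fin.addCases (fun i => ?_) (fun i => ?_) i
        · rw [finSumFinEquiv_symm_apply_castAdd, Fin.append_left]
          rfl
        · rw [finSumFinEquiv_symm_apply_natAdd, Fin.append_right]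
          rfl
      rw [e1, List.ofFn_fin_append]
      have e2 : List.ofFn (fun i => (q : ℚ_[q]) * (v i : ℚ_[q])) =
          (List.ofFn fun i => (v i : ℚ_[q])).map fun x => (q : ℚ_[q]) * x := by
        rw [List.map_ofFn]
        rfl
      rw [e2]
      have mv : ∀ x ∈ List.ofFn (fun i => (v i : ℚ_[q])), ∃ y : ℤ_[q], IsUnit y ∧
          x = (y : ℚ_[q]) := by
        intro x hx
        rw [List.mem_ofFn] at hx
        obtain ⟨i, rfl⟩ := hx
        exact ⟨v i, hv i, rfl⟩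
      have mu : ∀ x ∈ List.ofFn (fun i => (u i : ℚ_[q])), ∃ y : ℤ_[q], IsUnit y ∧
          x = (y : ℚ_[q]) := by
        intro x hx
        rw [List.mem_ofFn] at hx
        obtain ⟨i, rfl⟩ := hx
        exact ⟨u i, hu i, rfl⟩
      have nz : ∀ y : ℤ_[q], IsUnit y → (y : ℚ_[q]) ≠ 0 := fun y hy => by
        rw [Ne, PadicInt.coe_eq_zero]; exact hy.ne_zero
      have key : ∀ x x' : ℚ_[q], (∃ y : ℤ_[q], IsUnit y ∧ x = (y : ℚ_[q])) →
          (∃ y : ℤ_[q], IsUnit y ∧ x' = (y : ℚ_[q])) → hil ℚ_[q] x x' = 1 := by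
        rintro x x' ⟨y, hy, rfl⟩ ⟨y', hy', rfl⟩
        exact hil_units hq2 hy hy'
      rw [hasse_two hsym hq0 (hil_pp hq4) _ _
        (fun x hx => by obtain ⟨y, hy, rfl⟩ := mv x hx; exact nz y hy)
        (fun x hx => by obtain ⟨y, hy, rfl⟩ := mu x hx; exact nz y hy)
        (fun x hx x' hx' => key x x' (mv x hx) (mv x' hx'))
        (fun x hx x' hx' => key x x' (mu x hx) (mu x' hx'))
        (fun x hx x' hx' => key x x' (mv x hx) (mu x' hx'))
        (by rwa [List.length_ofFn])]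
      rw [List.prod_ofFn]
      have e3 : (∏ i, (v i : ℚ_[q])) = ((∏ i, v i : ℤ_[q]) : ℚ_[q]) := by
        exact (map_prod (algebraMap ℤ_[q] ℚ_[q]) v Finset.univ).symm
      have hvu : IsUnit (∏ i, v i) := by
        rw [IsUnit.prod_univ_iff]
        exact hv
      rw [e3, hil_p hq2 hvu]
      have e4 : C.det = T₁.det ^ 2 * ∏ i, v i := by
        rw [← hTv, Matrix.det_mul, Matrix.det_mul, Matrix.det_transpose, Matrix.det_diagonal]
        ring
      have e5 : PadicInt.toZMod T₁.det ≠ 0 := (unit_iff _).1 hT₁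
      have e6 : IsSquare (PadicInt.toZMod (∏ i, v i)) ↔ IsSquare ((V₁.det : ℤ) : ZMod q) := by
        rw [← hCz, e4, map_mul, map_pow]
        constructor
        · rintro ⟨z, hz⟩
          exact ⟨PadicInt.toZMod T₁.det * z, by rw [hz]; ring⟩
        · rintro ⟨z, hz⟩
          refine ⟨z / PadicInt.toZMod T₁.det, ?_⟩
          field_simp
          linear_combination hz
      by_cases h5 : IsSquare ((V₁.det : ℤ) : ZMod q)
      · rw [if_pos h5, if_pos (e6.2 h5)]
      · rw [if_neg h5, if_neg (fun h => h5 (e6.1 h))]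
  exact hv_cong hdiag (Equiv.refl _) _

end pad

end Pool.Agent.N545.PF
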