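import Pool.Agent.N545.PF.Ari

/-!
# Trace forms modulo an unramified prime: a prime of even residue degree

Project PF (helper783), part TFQ (helper545).
-/

set_option autoImplicit false
set_option linter.all false
set_option maxHeartbeats 4000000

open Matrix NumberField IsDedekindDomain Module

namespace Pool.Agent.N545.PF

section spl

variable {L : Type} [Field L] [NumberField L] {q : ℕ}

/-- The complementary ideal `J` of `Q`. -/
structure Spl (q : ℕ) (Q J : Ideal (𝓞 L)) (e : 𝓞 L) : Prop where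
  mul : Ideal.span {(q : 𝓞 L)} = Q * J
  mem : e ∈ J
  one : 1 - e ∈ Q

variable {Q J : Ideal (𝓞 L)} {e : 𝓞 L}

theorem Spl.prod (h : Spl q Q J e) {a b : 𝓞 L} (ha : a ∈ Q) (hb : b ∈ J) :
    a * b ∈ Ideal.span {(q : 𝓞 L)} := by
  rw [h.mul]
  exact Ideal.mul_mem_mul ha hb

theorem Spl.inter (h : Spl q Q J e) {a : 𝓞 L} (ha : a ∈ Q) (hb : a ∈ J) :
    a ∈ Ideal.span {(q : 𝓞 L)} := by
  have e1 : a = a * e + (1 - e) * a := by ring
  rw [e1]
  exact Ideal.add_mem _ (h.prod ha h.mem) (h.prod h.one hb)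

theorem Spl.left (h : Spl q Q J e) {a : 𝓞 L} (ha : a ∈ Ideal.span {(q : 𝓞 L)}) : a ∈ Q := by
  rw [h.mul] at ha
  exact (Ideal.mul_le_left : Q * J ≤ Q) ha

theorem Spl.right (h : Spl q Q J e) {a : 𝓞 L} (ha : a ∈ Ideal.span {(q : 𝓞 L)}) : a ∈ J := by
  rw [h.mul] at ha
  exact (Ideal.mul_le_right : Q * J ≤ J) ha

theorem exists_spl (𝔔 : HeightOneSpectrum (𝓞 L)) (h1 : (q : 𝓞 L) ∈ 𝔔.asIdeal)
    (h2 : (q : 𝓞 L) ∉ 𝔔.asIdeal ^ 2) : ∃ (J : Ideal (𝓞 L)) (e : 𝓞 L), Spl q 𝔔.asIdeal J e := by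
  obtain ⟨J, hJ⟩ := Ideal.dvd_iff_le.2 ((Ideal.span_singleton_le_iff_mem 𝔔.asIdeal).2 h1)
  have hn : ¬ J ≤ 𝔔.asIdeal := by
    intro hle
    apply h2
    rw [sq]
    have h3 : (q : 𝓞 L) ∈ 𝔔.asIdeal * J := by
      rw [← hJ]
      exact Ideal.mem_span_singleton_self _
    exact Ideal.mul_mono_right hle h3
  obtain ⟨x, hx, hx'⟩ := SetLike.not_le_iff_exists.1 hn
  obtain ⟨y, i, hi, hyi⟩ := 𝔔.isMaximal.exists_inv hx'
  refine ⟨J, y * x, hJ, J.mul_mem_left _ hx, ?_⟩
  have e1 : 1 - y * x = i := by rw [← hyi]; ring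
  rw [e1]
  exact hi

theorem cast_smul {K : Type} [Field K] [Algebra (ZMod q) K] (n : ℤ) (x : K) :
    ((n : ZMod q)) • x = (n : K) * x := by
  rw [Algebra.smul_def, map_intCast]

variable [hq : Fact q.Prime]

theorem exists_bas0 {A : Type} [CommRing A] [Module (ZMod q) A] [Module.Finite ℤ A] :
    ∃ (r : ℕ) (c : Fin r → A), (∀ a : A, ∃ α : Fin r → ℤ, a = ∑ j, (α j : A) * c j) ∧
      ∀ α : Fin r → ℤ, ∑ j, (α j : A) * c j = 0 → ∀ j, (q : ℤ) ∣ α j := by
  have hcs : ∀ (n : ℤ) (x : A), ((n : ZMod q)) • x = (n : A) * x := by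
    intro n x
    rw [Int.cast_smul_eq_zsmul, zsmul_eq_mul]
  have hfin : Module.Finite (ZMod q) A := Module.Finite.of_restrictScalars_finite ℤ (ZMod q) A
  have c := Module.finBasis (ZMod q) A
  refine ⟨_, c, fun a => ?_, fun α hα j => ?_⟩
  · choose γ hγ using fun j => ZMod.intCast_surjective (c.repr a j)
    refine ⟨γ, ?_⟩
    conv_lhs => rw [← c.sum_repr a]
    refine Finset.sum_congr rfl fun j _ => ?_
    rw [← hγ, hcs]
  · have h3 : ∑ i, ((α i : ZMod q)) • c i = 0 := by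
      rw [← hα]
      exact Finset.sum_congr rfl fun i _ => hcs _ _
    exact (ZMod.intCast_zmod_eq_zero_iff_dvd _ _).1
      (Fintype.linearIndependent_iff.1 c.linearIndependent _ h3 j)

/-- A basis of a ring in which `q = 0`. -/
theorem exists_bas {A : Type} [CommRing A] [Module.Finite ℤ A] (hqA : (q : A) = 0) :
    ∃ (r : ℕ) (c : Fin r → A), (∀ a : A, ∃ α : Fin r → ℤ, a = ∑ j, (α j : A) * c j) ∧
      ∀ α : Fin r → ℤ, ∑ j, (α j : A) * c j = 0 → ∀ j, (q : ℤ) ∣ α j := by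
  letI : Module (ZMod q) A := AddCommGroup.zmodModule (n := q) (by
    intro x
    rw [nsmul_eq_mul, hqA, zero_mul])
  exact exists_bas0 (q := q)

/-- Existence of a good basis modulo `q`. -/
theorem exists_qb (h : Spl q Q J e) {K : Type} [Field K] [Algebra (ZMod q) K] (φ : 𝓞 L →+* K)
    (hφ : Function.Surjective φ) (hk : ∀ a, φ a = 0 ↔ a ∈ Q) {f : ℕ}
    (b : Module.Basis (Fin f) (ZMod q) K) :
    ∃ (r : ℕ) (x : Fin f → 𝓞 L) (y : Fin r → 𝓞 L), (∀ i, x i ∈ J) ∧ (∀ i, φ (x i) = b i) ∧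
      (∀ j, y j ∈ Q) ∧ QB q (Sum.elim x y) := by
  have hqJ : (q : 𝓞 L) ∈ J := h.right (Ideal.mem_span_singleton_self _)
  have hφe : φ e = 1 := by
    have h1 := (hk _).2 h.one
    rw [map_sub, map_one, sub_eq_zero] at h1
    exact h1.symm
  have hJe : Ideal.Quotient.mk J (1 - e) = 1 := by
    rw [map_sub, map_one, Ideal.Quotient.eq_zero_iff_mem.2 h.mem, sub_zero]
  obtain ⟨r, c, hc1, hc2⟩ := exists_bas (q := q) (A := 𝓞 L ⧸ J) (by
    have := Ideal.Quotient.eq_zero_iff_mem.2 hqJ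
    rwa [map_natCast] at this)
  choose x0 hx0 using fun i => hφ (b i)
  choose y0 hy0 using fun j => Ideal.Quotient.mk_surjective (c j)
  have hxJ : ∀ i, x0 i * e ∈ J := fun i => J.mul_mem_left _ h.mem
  have hyQ : ∀ j, (1 - e) * y0 j ∈ Q := fun j => Q.mul_mem_right _ h.one
  have hφx : ∀ i, φ (x0 i * e) = b i := fun i => by rw [map_mul, hφe, mul_one, hx0]
  have hψy : ∀ j, Ideal.Quotient.mk J ((1 - e) * y0 j) = c j := fun j => by
    rw [map_mul, hJe, one_mul, hy0]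
  have hφy : ∀ j, φ ((1 - e) * y0 j) = 0 := fun j => (hk _).2 (hyQ j)
  have hψx : ∀ i, Ideal.Quotient.mk J (x0 i * e) = 0 := fun i =>
    Ideal.Quotient.eq_zero_iff_mem.2 (hxJ i)
  refine ⟨r, fun i => x0 i * e, fun j => (1 - e) * y0 j, hxJ, hφx, hyQ, ?_, ?_⟩
  · intro a
    choose α hα using fun i => ZMod.intCast_surjective (b.repr (φ a) i)
    obtain ⟨γ, hγ⟩ := hc1 (Ideal.Quotient.mk J a)
    refine ⟨Sum.elim α γ, ?_⟩
    rw [Fintype.sum_sum_type]
    simp only [Sum.elim_inl, Sum.elim_inr]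
    apply h.inter
    · rw [← hk, map_sub, map_add, map_sum, map_sum]
      have e1 : ∑ i, φ (α i • (x0 i * e)) = φ a := by
        conv_rhs => rw [← b.sum_repr (φ a)]
        refine Finset.sum_congr rfl fun i _ => ?_
        rw [map_zsmul, hφx, ← hα, cast_smul, zsmul_eq_mul]
      have e2 : ∑ j, φ (γ j • ((1 - e) * y0 j)) = 0 := by
        refine Finset.sum_eq_zero fun j _ => ?_
        rw [map_zsmul, hφy, smul_zero]
      rw [e1, e2, add_zero, sub_self]
    · rw [← Ideal.Quotient.eq_zero_iff_mem, map_sub, map_add, map_sum, map_sum]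
      have e1 : ∑ j, Ideal.Quotient.mk J (γ j • ((1 - e) * y0 j)) = Ideal.Quotient.mk J a := by
        rw [hγ]
        refine Finset.sum_congr rfl fun j _ => ?_
        rw [map_zsmul, hψy, zsmul_eq_mul]
      have e2 : ∑ i, Ideal.Quotient.mk J (α i • (x0 i * e)) = 0 := by
        refine Finset.sum_eq_zero fun i _ => ?_
        rw [map_zsmul, hψx, smul_zero]
      rw [e1, e2, zero_add, sub_self]
  · intro α hα
    rw [Fintype.sum_sum_type] at hα
    simp only [Sum.elim_inl, Sum.elim_inr] at hα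
    have h1 := (hk _).2 (h.left hα)
    have h2 := Ideal.Quotient.eq_zero_iff_mem.2 (h.right hα)
    rw [map_add, map_sum, map_sum] at h1 h2
    have e1 : ∑ j, φ (α (Sum.inr j) • ((1 - e) * y0 j)) = 0 := by
      refine Finset.sum_eq_zero fun j _ => ?_
      rw [map_zsmul, hφy, smul_zero]
    have e2 : ∑ i, Ideal.Quotient.mk J (α (Sum.inl i) • (x0 i * e)) = 0 := by
      refine Finset.sum_eq_zero fun i _ => ?_
      rw [map_zsmul, hψx, smul_zero]
    rw [e1, add_zero] at h1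
    rw [e2, zero_add] at h2
    have h3 : ∑ i, ((α (Sum.inl i) : ZMod q)) • b i = 0 := by
      rw [← h1]
      refine Finset.sum_congr rfl fun i _ => ?_
      rw [map_zsmul, hφx, cast_smul, zsmul_eq_mul]
    have h4 : ∑ j, ((α (Sum.inr j) : 𝓞 L ⧸ J)) * c j = 0 := by
      rw [← h2]
      refine Finset.sum_congr rfl fun j _ => ?_
      rw [map_zsmul, hψy, zsmul_eq_mul]
    have h5 := Fintype.linearIndependent_iff.1 b.linearIndependent _ h3
    have h6 := hc2 _ h4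
    rintro (i | j)
    · exact (ZMod.intCast_zmod_eq_zero_iff_dvd _ _).1 (h5 i)
    · exact h6 j

/-- The trace modulo `q` of an element of `J`. -/
theorem trace_res (h : Spl q Q J e) {K : Type} [Field K] [Algebra (ZMod q) K] (φ : 𝓞 L →+* K)
    (hk : ∀ a, φ a = 0 ↔ a ∈ Q) {f r : ℕ}
    (b : Module.Basis (Fin f) (ZMod q) K) {x : Fin f → 𝓞 L} {y : Fin r → 𝓞 L}
    (hxb : ∀ i, φ (x i) = b i) (hy : ∀ j, y j ∈ Q) (hw : QB q (Sum.elim x y)) {a : 𝓞 L}
    (ha : a ∈ J) :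
    ((Algebra.trace ℤ (𝓞 L) a : ℤ) : ZMod q) = Algebra.trace (ZMod q) K (φ a) := by
  obtain ⟨m, hm, hm2⟩ := hw.nak
  have hm1 : (m : ZMod q) = 1 := by
    have := (ZMod.intCast_zmod_eq_zero_iff_dvd _ _).2 hm
    push_cast at this
    exact sub_eq_zero.1 this
  choose α hα using fun j => hm2 (a * Sum.elim x y j)
  have h1 := hw.trace hq.out a (fun i j => α j i) hα
  have h2 := congrArg (fun n : ℤ => (n : ZMod q)) h1
  simp only [Int.cast_mul, hm1, one_mul, Int.cast_sum, Int.cast_add, Fintype.sum_sum_type] at h2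
  rw [h2]
  have e1 : ∑ j, ((α (Sum.inr j) (Sum.inr j) : ℤ) : ZMod q) = 0 := by
    refine Finset.sum_eq_zero fun j _ => ?_
    rw [ZMod.intCast_zmod_eq_zero_iff_dvd]
    refine hw.ind (α (Sum.inr j)) ?_ _
    rw [← hα (Sum.inr j), zsmul_eq_mul]
    refine Ideal.mul_mem_left _ _ ?_
    rw [mul_comm]
    exact h.prod (hy j) ha
  rw [e1, add_zero, Algebra.trace_eq_matrix_trace b, Matrix.trace]
  refine Finset.sum_congr rfl fun j _ => ?_
  rw [Matrix.diag_apply, Algebra.leftMulMatrix_eq_repr_mul]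
  have h3 := congrArg φ (hα (Sum.inl j))
  rw [map_zsmul, map_sum, Fintype.sum_sum_type] at h3
  simp only [Sum.elim_inl, Sum.elim_inr, map_zsmul, map_mul, hxb, (hk _).2 (hy _), smul_zero,
    Finset.sum_const_zero, add_zero] at h3
  have h4 : φ a * b j = ∑ i, ((α (Sum.inl j) (Sum.inl i) : ZMod q)) • b i := by
    have e2 : ∑ i, ((α (Sum.inl j) (Sum.inl i) : ZMod q)) • b i =
        ∑ i, α (Sum.inl j) (Sum.inl i) • b i := by
      refine Finset.sum_congr rfl fun i _ => ?_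
      rw [cast_smul, zsmul_eq_mul]
    rw [e2, ← h3, zsmul_eq_mul, ← cast_smul (q := q), hm1, one_smul]
  have h5 := congrArg (fun y => b.repr y j) h4
  simp only [map_smul, map_sum, Finsupp.smul_apply, Finsupp.finsetSum_apply, b.repr_self,
    smul_eq_mul, Finsupp.single_apply, mul_ite, mul_one, mul_zero, Finset.sum_ite_eq',
    Finset.mem_univ, if_true] at h5
  exact h5.symm

/-- The part of the form prime to `Q` is unimodular. -/
theorem det_V0 (hun : ∀ 𝔓 : HeightOneSpectrum (𝓞 L), (q : 𝓞 L) ∉ 𝔓.asIdeal ^ 2)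
    (h : Spl q Q J e) {f r : ℕ} {x : Fin f → 𝓞 L} {y : Fin r → 𝓞 L}
    (hx : ∀ i, x i ∈ J) (hy : ∀ j, y j ∈ Q) (hw : QB q (Sum.elim x y)) (z z' : 𝓞 L)
    (hz : 1 - z * z' ∈ J) :
    ¬ (q : ℤ) ∣ (Matrix.of fun i j => Algebra.trace ℤ (𝓞 L) (z * y i * y j)).det := by
  intro hdvd
  set V : Matrix (Fin r) (Fin r) ℤ :=
    Matrix.of fun i j => Algebra.trace ℤ (𝓞 L) (z * y i * y j) with hV
  have h1 : ((Int.castRingHom (ZMod q)).mapMatrix V).det = 0 := by
    rw [← RingHom.map_det]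
    exact (ZMod.intCast_zmod_eq_zero_iff_dvd _ _).2 hdvd
  obtain ⟨v, hv, hvM⟩ := Matrix.exists_vecMul_eq_zero_iff.2 h1
  choose c hc using fun i => ZMod.intCast_surjective (v i)
  have h2 : ∀ j, (q : ℤ) ∣ Algebra.trace ℤ (𝓞 L) (z * (∑ i, c i • y i) * y j) := by
    intro j
    rw [← ZMod.intCast_zmod_eq_zero_iff_dvd]
    have e1 := congrFun hvM j
    rw [← e1.trans (Pi.zero_apply j)]
    rw [Finset.mul_sum, Finset.sum_mul, map_sum, Int.cast_sum]
    refine Finset.sum_congr rfl fun i _ => ?_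
    show _ = v i * ((V i j : ℤ) : ZMod q)
    rw [← hc, ← Int.cast_mul]
    congr 1
    rw [hV, Matrix.of_apply, mul_smul_comm, smul_mul_assoc, map_smul, smul_eq_mul]
  obtain ⟨Y, hY⟩ : ∃ Y, Y = ∑ i, c i • y i := ⟨_, rfl⟩
  rw [← hY] at h2
  have hYQ : Y ∈ Q := by
    rw [hY]
    refine Submodule.sum_mem _ fun i _ => ?_
    rw [zsmul_eq_mul]
    exact Q.mul_mem_left _ (hy i)
  have h3 : z * Y ∈ Ideal.span {(q : 𝓞 L)} := by
    refine nondeg hq.out hun _ fun w => ?_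
    obtain ⟨α, hα⟩ := hw.span w
    rw [Fintype.sum_sum_type] at hα
    simp only [Sum.elim_inl, Sum.elim_inr] at hα
    have e1 : z * Y * w = z * Y * (w - (∑ i, α (Sum.inl i) • x i + ∑ j, α (Sum.inr j) • y j)) +
        (∑ i, α (Sum.inl i) • (z * (Y * x i)) + ∑ j, α (Sum.inr j) • (z * Y * y j)) := by
      have e2 : ∑ i, α (Sum.inl i) • (z * (Y * x i)) = z * Y * ∑ i, α (Sum.inl i) • x i := by
        rw [Finset.mul_sum]
        refine Finset.sum_congr rfl fun i _ => ?_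
        rw [mul_smul_comm, mul_assoc]
      have e3 : ∑ j, α (Sum.inr j) • (z * Y * y j) = z * Y * ∑ j, α (Sum.inr j) • y j := by
        rw [Finset.mul_sum]
        refine Finset.sum_congr rfl fun i _ => ?_
        rw [mul_smul_comm]
      rw [e2, e3]
      ring
    rw [e1, map_add, map_add, map_sum, map_sum]
    refine dvd_add (trace_dvd (Ideal.mul_mem_left _ _ hα)) (dvd_add ?_ ?_)
    · refine Finset.dvd_sum fun i _ => ?_
      rw [map_smul, smul_eq_mul]
      exact (trace_dvd (Ideal.mul_mem_left _ _ (h.prod hYQ (hx i)))).mul_left _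
    · refine Finset.dvd_sum fun j _ => ?_
      rw [map_smul, smul_eq_mul]
      exact (h2 j).mul_left _
  have h4 : Y ∈ J := by
    have e1 : Y = (1 - z * z') * Y + z' * (z * Y) := by ring
    rw [e1]
    exact J.add_mem (J.mul_mem_right _ hz) (J.mul_mem_left _ (h.right h3))
  have h5 := hw.ind (Sum.elim (fun _ => (0 : ℤ)) c) (by
    rw [Fintype.sum_sum_type]
    simp only [Sum.elim_inl, Sum.elim_inr, zero_smul, Finset.sum_const_zero,
      zero_add]
    rw [← hY]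
    exact h.inter hYQ h4)
  apply hv
  funext j
  rw [Pi.zero_apply, ← hc, ZMod.intCast_zmod_eq_zero_iff_dvd]
  exact h5 (Sum.inr j)

end spl

end Pool.Agent.N545.PF
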