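import Pool.Agent.N545.PF.Spl
import Pool.Agent.N545.PF.Pad

/-!
# The Hasse invariant of a trace form at an unramified prime

Project PF (helper783), part TFQ (helper545).
-/

set_option autoImplicit false
set_option linter.all false
set_option maxHeartbeats 4000000

open Matrix NumberField IsDedekindDomain Module WithZero

namespace Pool.Agent.N545.PF

open Pool.Agent.N783.PF (HV)
open Pool.Agent.N874.PP (Ev Sq1)
open Pool.Agent.N644.PQ.HunC (approx finite_over den)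

section val

variable {L : Type} [Field L] [NumberField L] {q : ℕ}

theorem coprime_mod {J : Ideal (𝓞 L)} (hJ : J ≠ ⊥) (z : 𝓞 L)
    (h : ∀ 𝔓 : HeightOneSpectrum (𝓞 L), J ≤ 𝔓.asIdeal → z ∉ 𝔓.asIdeal) :
    ∃ z', 1 - z * z' ∈ J := by
  have h1 : J ⊔ Ideal.span {z} = ⊤ := by
    by_contra hne
    obtain ⟨P, hP, hle⟩ := Ideal.exists_le_maximal _ hne
    have hJP : J ≤ P := le_sup_left.trans hle
    have hPb : P ≠ ⊥ := by
      rintro rfl
      exact hJ (le_bot_iff.1 hJP)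
    refine h ⟨P, hP.isPrime, hPb⟩ hJP ?_
    exact hle (Ideal.mem_sup_right (Ideal.mem_span_singleton_self z))
  have h2 : (1 : 𝓞 L) ∈ J ⊔ Ideal.span {z} := by rw [h1]; trivial
  obtain ⟨a, ha, b, hb, hab⟩ := Submodule.mem_sup.1 h2
  obtain ⟨z', rfl⟩ := Ideal.mem_span_singleton.1 hb
  refine ⟨z', ?_⟩
  have e1 : 1 - z * z' = a := by rw [← hab]; ring
  rw [e1]
  exact ha

theorem val_int {m : ℤ} (hq : q.Prime) (hm : ¬ (q : ℤ) ∣ m) (𝔓 : HeightOneSpectrum (𝓞 L))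
    (h : (q : 𝓞 L) ∈ 𝔓.asIdeal) : 𝔓.valuation L (m : L) = 1 := by
  have h1 : (m : L) = algebraMap (𝓞 L) L (m : 𝓞 L) := by rw [map_intCast]
  rw [h1, 𝔓.valuation_eq_one_iff_notMem]
  intro hmem
  obtain ⟨a, b, hab⟩ : IsCoprime (q : ℤ) m :=
    ((Nat.prime_iff_prime_int.1 hq).coprime_iff_not_dvd).mpr hm
  apply 𝔓.isPrime.ne_top
  rw [Ideal.eq_top_iff_one]
  have h2 : (1 : 𝓞 L) = (a : 𝓞 L) * (q : 𝓞 L) + (b : 𝓞 L) * (m : 𝓞 L) := by
    have := congrArg (fun n : ℤ => (n : 𝓞 L)) hab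
    push_cast at this
    exact this.symm
  rw [h2]
  exact Ideal.add_mem _ (Ideal.mul_mem_left _ _ h) (Ideal.mul_mem_left _ _ hmem)

/-- Reduction to an integer with given valuations at the primes over `q`. -/
theorem reduce (hq : q.Prime) {c : L} (hc : c ≠ 0)
    (ε : HeightOneSpectrum (𝓞 L) → WithZero (Multiplicative ℤ)) (hε : ∀ 𝔓, ε 𝔓 ≤ 1)
    (h : ∀ 𝔓 : HeightOneSpectrum (𝓞 L), (q : 𝓞 L) ∈ 𝔓.asIdeal →
      ∃ y : L, y ≠ 0 ∧ 𝔓.valuation L c = 𝔓.valuation L y ^ 2 * ε 𝔓) :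
    ∃ (z : 𝓞 L) (s : L), s ≠ 0 ∧ (z : L) = c * s ^ 2 ∧
      ∀ 𝔓 : HeightOneSpectrum (𝓞 L), (q : 𝓞 L) ∈ 𝔓.asIdeal → 𝔓.valuation L (z : L) = ε 𝔓 := by
  have hq0 : (q : 𝓞 L) ≠ 0 := by exact_mod_cast hq.ne_zero
  have hfin := finite_over (O := 𝓞 L) (q : 𝓞 L) hq0
  have hy : ∀ 𝔓 : HeightOneSpectrum (𝓞 L), ∃ y : L, y ≠ 0 ∧ ((q : 𝓞 L) ∈ 𝔓.asIdeal →
      𝔓.valuation L c = 𝔓.valuation L y ^ 2 * ε 𝔓) := by
    intro 𝔓
    by_cases h1 : (q : 𝓞 L) ∈ 𝔓.asIdeal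
    · obtain ⟨y, hy0, hy⟩ := h 𝔓 h1
      exact ⟨y, hy0, fun _ => hy⟩
    · exact ⟨1, one_ne_zero, fun h' => absurd h' h1⟩
  choose y hy0 hy using hy
  obtain ⟨x, hx0, hx⟩ := approx hfin.toFinset y fun 𝔓 _ => hy0 𝔓
  have hv1 : ∀ 𝔓 : HeightOneSpectrum (𝓞 L), (q : 𝓞 L) ∈ 𝔓.asIdeal →
      𝔓.valuation L (c / x ^ 2) = ε 𝔓 := by
    intro 𝔓 h𝔓
    have hv0 : 𝔓.valuation L (y 𝔓) ^ 2 ≠ 0 :=
      pow_ne_zero 2 ((Valuation.ne_zero_iff (𝔓.valuation L)).2 (hy0 𝔓))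
    rw [map_div₀, map_pow, hx 𝔓 (hfin.mem_toFinset.2 h𝔓), hy 𝔓 h𝔓, mul_comm,
      mul_div_assoc, div_self hv0, mul_one]
  have hint : ∀ a : L, ∃ N : ℤ, N ≠ 0 ∧ ∃ z : 𝓞 L, algebraMap (𝓞 L) L z = N * a := by
    intro a
    have h1 : IsAlgebraic ℤ a := by
      have h2 : IsAlgebraic ℚ a := Algebra.IsAlgebraic.isAlgebraic a
      exact (IsFractionRing.isAlgebraic_iff ℤ ℚ L).2 h2
    obtain ⟨N, hN, hNa⟩ := h1.exists_integral_multiple
    refine ⟨N, hN, ⟨⟨N • a, hNa⟩, ?_⟩⟩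
    show N • a = (N : L) * a
    rw [zsmul_eq_mul]
  obtain ⟨m, hm, z, hz⟩ := den (O := 𝓞 L) hint q hq (c / x ^ 2) fun 𝔓 h => by
    rw [hv1 𝔓 h]
    exact hε 𝔓
  have hm0 : (m : L) ≠ 0 := by
    rw [Int.cast_ne_zero]
    rintro rfl
    exact hm (dvd_zero _)
  have hz' : (((m : 𝓞 L) * z : 𝓞 L) : L) = c * ((m : L) / x) ^ 2 := by
    show algebraMap (𝓞 L) L ((m : 𝓞 L) * z) = c * ((m : L) / x) ^ 2
    rw [map_mul, map_intCast, hz]
    field_simp
  refine ⟨(m : 𝓞 L) * z, (m : L) / x, div_ne_zero hm0 hx0, hz', fun 𝔓 h𝔓 => ?_⟩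
  have e1 : c * ((m : L) / x) ^ 2 = (m : L) ^ 2 * (c / x ^ 2) := by
    field_simp
  rw [hz', e1, map_mul, map_pow, val_int hq hm 𝔓 h𝔓, one_pow, one_mul, hv1 𝔓 h𝔓]

theorem exists_val (𝔓 : HeightOneSpectrum (𝓞 L)) (a : ℤ) :
    ∃ y : L, y ≠ 0 ∧ 𝔓.valuation L y = exp a := by
  obtain ⟨π, hπ⟩ := 𝔓.valuation_exists_uniformizer L
  have hπ0 : π ≠ 0 := by
    rintro rfl
    rw [map_zero] at hπ
    exact exp_ne_zero hπ.symm
  refine ⟨π ^ (-a), zpow_ne_zero _ hπ0, ?_⟩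
  rw [map_zpow₀, hπ, ← WithZero.exp_zsmul]
  congr 1
  simp

theorem odd_val {𝔮 : HeightOneSpectrum (𝓞 L)} {α : L} (h0 : α ≠ 0)
    (hE : ¬ Ev 𝔮 α) : ∃ a : ℤ, 𝔮.valuation L α = exp (2 * a + 1) := by
  have hv : 𝔮.valuation L α ≠ 0 := (Valuation.ne_zero_iff _).mpr h0
  obtain ⟨n, hn⟩ : ∃ n : ℤ, 𝔮.valuation L α = exp n := ⟨log (𝔮.valuation L α), (exp_log hv).symm⟩
  rcases Int.even_or_odd' n with ⟨m, hm | hm⟩
  · exfalso
    obtain ⟨β, -, hβ⟩ := exists_val 𝔮 m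
    refine hE ⟨β, ?_⟩
    rw [hβ, hn, hm, sq, ← exp_add]
    congr 1
    ring
  · exact ⟨m, by rw [hn, hm]⟩

theorem sq1_mul_sq {𝔓 : HeightOneSpectrum (𝓞 L)} {x w : L} (hw : w ≠ 0) :
    Sq1 𝔓 (x * w ^ 2) ↔ Sq1 𝔓 x := by
  have hw0 : 0 < 𝔓.valuation L w ^ 2 := by
    have : 𝔓.valuation L w ≠ 0 := (Valuation.ne_zero_iff _).mpr hw
    exact zero_lt_iff.mpr (pow_ne_zero 2 this)
  constructor
  · rintro ⟨s, hs⟩
    refine ⟨s / w, ?_⟩
    have e : x * w ^ 2 - s ^ 2 = (x - (s / w) ^ 2) * w ^ 2 := by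
      field_simp
    rw [e, map_mul, map_mul, map_pow] at hs
    exact (mul_lt_mul_iff_left₀ hw0).mp hs
  · rintro ⟨s, hs⟩
    refine ⟨s * w, ?_⟩
    have e : x * w ^ 2 - (s * w) ^ 2 = (x - s ^ 2) * w ^ 2 := by ring
    rw [e, map_mul, map_mul, map_pow]
    exact (mul_lt_mul_iff_left₀ hw0).mpr hs

theorem sq1_congr {𝔓 : HeightOneSpectrum (𝓞 L)} {x x' : L}
    (h : 𝔓.valuation L (x' - x) < 𝔓.valuation L x) : Sq1 𝔓 x → Sq1 𝔓 x' := by
  have hv : 𝔓.valuation L x' = 𝔓.valuation L x := by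
    have h1 := Valuation.map_add_eq_of_lt_left (𝔓.valuation L) h
    rwa [add_sub_cancel] at h1
  rintro ⟨s, hs⟩
  refine ⟨s, ?_⟩
  have e : x' - s ^ 2 = (x' - x) + (x - s ^ 2) := by ring
  rw [e, hv]
  exact Valuation.map_add_lt _ h hs

theorem sq1_iff {𝔮 : HeightOneSpectrum (𝓞 L)} {y : 𝓞 L} (hy : y ∉ 𝔮.asIdeal) :
    Sq1 𝔮 (algebraMap (𝓞 L) L y) ↔ ∃ z : 𝓞 L, y - z ^ 2 ∈ 𝔮.asIdeal := by
  have hvy : 𝔮.valuation L (algebraMap (𝓞 L) L y) = 1 := 𝔮.valuation_eq_one_iff_notMem.mpr hy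
  constructor
  · rintro ⟨s, hs⟩
    rw [hvy] at hs
    have hs1 : 𝔮.valuation L s ≤ 1 := by
      by_contra hgt
      push Not at hgt
      have h3 : 𝔮.valuation L (algebraMap (𝓞 L) L y) < 𝔮.valuation L (s ^ 2) := by
        rw [hvy, map_pow]
        exact one_lt_pow' hgt (by norm_num)
      have h4 : 𝔮.valuation L (algebraMap (𝓞 L) L y - s ^ 2) = 𝔮.valuation L (s ^ 2) := by
        rw [Valuation.map_sub_swap]
        exact Valuation.map_sub_eq_of_lt_left _ h3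
      rw [h4] at hs
      exact absurd (hvy ▸ h3) (not_lt.mpr hs.le)
    obtain ⟨z, hz⟩ := 𝔮.exists_valuation_sub_lt_of_integer hs1 1
    rw [Units.val_one] at hz
    refine ⟨z, ?_⟩
    rw [← 𝔮.valuation_lt_one_iff_mem (K := L)]
    change 𝔮.valuation L (algebraMap (𝓞 L) L (y - z ^ 2)) < 1
    have e : algebraMap (𝓞 L) L (y - z ^ 2) = (algebraMap (𝓞 L) L y - s ^ 2) -
        (algebraMap (𝓞 L) L z - s) * (algebraMap (𝓞 L) L z + s) := by
      rw [map_sub, map_pow]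
      ring
    rw [e]
    refine Valuation.map_sub_lt _ hs ?_
    rw [map_mul]
    have h5 : 𝔮.valuation L (algebraMap (𝓞 L) L z + s) ≤ 1 :=
      Valuation.map_add_le _ (𝔮.valuation_le_one _) hs1
    calc 𝔮.valuation L (algebraMap (𝓞 L) L z - s) * 𝔮.valuation L (algebraMap (𝓞 L) L z + s)
        ≤ 𝔮.valuation L (algebraMap (𝓞 L) L z - s) * 1 := mul_le_mul_right h5 _
      _ = 𝔮.valuation L (algebraMap (𝓞 L) L z - s) := mul_one _
      _ < 1 := hz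
  · rintro ⟨z, hz⟩
    refine ⟨algebraMap (𝓞 L) L z, ?_⟩
    rw [hvy, ← map_pow, ← map_sub]
    exact (𝔮.valuation_lt_one_iff_mem _).mpr hz

theorem sq1_psi {𝔮 : HeightOneSpectrum (𝓞 L)} {E : Type} [Field E] {ψ : 𝓞 L →+* E}
    (hψ : Function.Surjective ψ) (hk : ∀ a, ψ a = 0 ↔ a ∈ 𝔮.asIdeal) {y : 𝓞 L}
    (hy : y ∉ 𝔮.asIdeal) : Sq1 𝔮 (algebraMap (𝓞 L) L y) ↔ IsSquare (ψ y) := by
  rw [sq1_iff hy]
  constructor
  · rintro ⟨z, hz⟩
    rw [← hk, map_sub, map_pow, sub_eq_zero] at hz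
    exact ⟨ψ z, by rw [hz, sq]⟩
  · rintro ⟨z, hz⟩
    obtain ⟨z, rfl⟩ := hψ z
    refine ⟨z, ?_⟩
    rw [← hk, map_sub, map_pow, hz, sq, sub_self]

/-- Transfer to another basis. -/
theorem hv_of_gram [Fact q.Prime] {κ : Type} [Fintype κ] {w : κ → 𝓞 L}
    (B : Module.Basis κ ℚ L) (hB : ∀ i, B i = (w i : L)) {z : 𝓞 L} {ε : ℤ}
    (hG : HV ((Matrix.of fun i j => Algebra.trace ℤ (𝓞 L) (z * w i * w j)).map
      (Int.castRingHom ℚ_[q])) ε) {ι : Type} [Fintype ι] (b : Module.Basis ι ℚ L) {c s : L}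
    (hs : s ≠ 0) (hc : (z : L) = c * s ^ 2) :
    HV ((Matrix.of fun i j => Algebra.trace ℚ L (b i * b j * c)).map (Rat.castHom ℚ_[q])) ε := by
  set G : Matrix κ κ ℤ := Matrix.of fun i j => Algebra.trace ℤ (𝓞 L) (z * w i * w j) with hGd
  set T : Matrix ι κ ℚ := Matrix.of fun i k => B.repr (b i / s) k with hT
  have hb : ∀ i, b i / s = ∑ k, T i k • B k := fun i => (B.sum_repr (b i / s)).symm
  have h1 : (Matrix.of fun i j => Algebra.trace ℚ L (b i * b j * c)) =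
      T * G.map (Int.castRingHom ℚ) * Tᵀ := by
    ext i j
    rw [Matrix.of_apply, Matrix.mul_apply]
    have e1 : b i * b j * c = ∑ l, T j l • ∑ k, T i k • ((z * w k * w l : 𝓞 L) : L) := by
      have e2 : b i * b j * c = (z : L) * (b i / s) * (b j / s) := by
        rw [hc]
        field_simp
      rw [e2, hb j, Finset.mul_sum]
      refine Finset.sum_congr rfl fun l _ => ?_
      rw [mul_smul_comm]
      congr 1
      rw [hb i, Finset.mul_sum, Finset.sum_mul]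
      refine Finset.sum_congr rfl fun k _ => ?_
      rw [mul_smul_comm, smul_mul_assoc, hB, hB]
      rfl
    rw [e1, map_sum]
    refine Finset.sum_congr rfl fun l _ => ?_
    rw [map_smul, map_sum, Matrix.mul_apply, Matrix.transpose_apply, smul_eq_mul, mul_comm]
    congr 1
    refine Finset.sum_congr rfl fun k _ => ?_
    rw [map_smul, smul_eq_mul, Matrix.map_apply, ← Algebra.coe_trace_int]
    rfl
  have h2 : (T * G.map (Int.castRingHom ℚ) * Tᵀ).map (Rat.castHom ℚ_[q]) =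
      T.map (Rat.castHom ℚ_[q]) * G.map (Int.castRingHom ℚ_[q]) *
        (T.map (Rat.castHom ℚ_[q]))ᵀ := by
    rw [Matrix.map_mul, Matrix.map_mul, Matrix.transpose_map]
    congr 2
  rw [h1, h2]
  exact hv_cong hG (b.indexEquiv B) _

end val

section main

variable {L : Type} [Field L] [NumberField L] {q : ℕ} [hq : Fact q.Prime]

/-- The case of even valuations. -/
theorem case_even (hq4 : q % 4 = 1)
    (hun : ∀ 𝔓 : HeightOneSpectrum (𝓞 L), (q : 𝓞 L) ∉ 𝔓.asIdeal ^ 2)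
    {ι : Type} [Fintype ι] (b : Module.Basis ι ℚ L) {c : L} (hc : c ≠ 0)
    (hev : ∀ 𝔓 : HeightOneSpectrum (𝓞 L), (q : 𝓞 L) ∈ 𝔓.asIdeal → Ev 𝔓 c) :
    HV ((Matrix.of fun i j => Algebra.trace ℚ L (b i * b j * c)).map (Rat.castHom ℚ_[q])) 1 := by
  have hq0 : (q : 𝓞 L) ≠ 0 := by exact_mod_cast hq.out.ne_zero
  obtain ⟨z, s, hs, hz, hv⟩ := reduce (L := L) hq.out hc (fun _ => 1) (fun _ => le_rfl) (by
    intro 𝔓 h𝔓
    obtain ⟨y, hy⟩ := hev 𝔓 h𝔓
    refine ⟨y, ?_, by rw [hy, mul_one]⟩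
    rintro rfl
    rw [map_zero, zero_pow two_ne_zero] at hy
    exact hc ((Valuation.zero_iff _).1 hy))
  have hspl : Spl q (⊤ : Ideal (𝓞 L)) (Ideal.span {(q : 𝓞 L)}) 0 :=
    ⟨(Ideal.top_mul _).symm, Ideal.zero_mem _, trivial⟩
  obtain ⟨z', hz'⟩ := coprime_mod (J := Ideal.span {(q : 𝓞 L)})
    (by rw [Ne, Ideal.span_singleton_eq_bot]; exact hq0) z (by
      intro 𝔓 hle hmem
      have h1 := hv 𝔓 (hle (Ideal.mem_span_singleton_self _))
      exact (𝔓.valuation_eq_one_iff_notMem (K := L)).1 h1 hmem)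
  obtain ⟨r, ⟨β⟩⟩ : ∃ r : ℕ, Nonempty (Module.Basis (Fin r) ℤ (𝓞 L)) :=
    ⟨_, ⟨(RingOfIntegers.basis L).reindex (Fintype.equivFin _)⟩⟩
  have hw : QB q (Sum.elim (Fin.elim0 : Fin 0 → 𝓞 L) β) := by
    refine ⟨fun a => ⟨Sum.elim Fin.elim0 (fun j => β.repr a j), ?_⟩, fun α hα => ?_⟩
    · rw [Fintype.sum_sum_type]
      simp only [Sum.elim_inr, Finset.univ_eq_empty, Finset.sum_empty, zero_add]
      rw [β.sum_repr, sub_self]
      exact Ideal.zero_mem _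
    · rw [Fintype.sum_sum_type] at hα
      simp only [Sum.elim_inr, Finset.univ_eq_empty, Finset.sum_empty, zero_add] at hα
      obtain ⟨a, ha⟩ := Ideal.mem_span_singleton.1 hα
      rintro (i | j)
      · exact i.elim0
      · refine ⟨β.repr a j, ?_⟩
        have e1 : (q : 𝓞 L) * a = (q : ℤ) • a := by
          rw [zsmul_eq_mul]
          push_cast
          rfl
        rw [e1] at ha
        have h2 := congrArg (fun y => β.repr y j) ha
        simp only [map_smul, map_sum, Finsupp.smul_apply, Finsupp.finsetSum_apply, β.repr_self,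
          smul_eq_mul, Finsupp.single_apply, mul_ite, mul_one, mul_zero, Finset.sum_ite_eq',
          Finset.mem_univ, if_true] at h2
        exact h2
  have hd := det_V0 (q := q) hun hspl (x := (Fin.elim0 : Fin 0 → 𝓞 L)) (y := β)
    (fun i => i.elim0) (fun _ => trivial) hw z z' hz'
  obtain ⟨B, hB⟩ := hw.basis hq.out
  refine hv_of_gram B hB ?_ b hs hz
  have hsym : (Matrix.of fun i j => Algebra.trace ℤ (𝓞 L) (z * β i * β j)).IsSymm := by
    ext i j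
    rw [Matrix.transpose_apply, Matrix.of_apply, Matrix.of_apply, mul_right_comm]
  have h1 := hv_block (q := q) hq4 (f := 0) (r := r) (by norm_num) 0 0
    (Matrix.of fun i j => Algebra.trace ℤ (𝓞 L) (z * β i * β j)) (Matrix.isSymm_zero) hsym
    (by
      rw [Matrix.det_isEmpty]
      intro h
      have h2 := Int.le_of_dvd one_pos h
      have := hq.out.two_le
      omega) hd
  rw [Matrix.det_isEmpty, Int.cast_one, if_pos IsSquare.one] at h1
  convert h1 using 2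
  ext i j
  rcases i with i | i
  · exact i.elim0
  rcases j with j | j
  · exact j.elim0
  rfl

open scoped Classical in
/-- The case of an odd valuation at `𝔔`. -/
theorem case_odd (hq4 : q % 4 = 1)
    (hun : ∀ 𝔓 : HeightOneSpectrum (𝓞 L), (q : 𝓞 L) ∉ 𝔓.asIdeal ^ 2)
    {ι : Type} [Fintype ι] (b : Module.Basis ι ℚ L) {c : L} (hc : c ≠ 0)
    (𝔔 : HeightOneSpectrum (𝓞 L)) (h𝔔 : (q : 𝓞 L) ∈ 𝔔.asIdeal)
    {K : Type} [Field K] [Finite K] [Algebra (ZMod q) K] (φ : 𝓞 L →+* K)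
    (hφ : Function.Surjective φ) (hk : ∀ a, φ a = 0 ↔ a ∈ 𝔔.asIdeal) {m : ℕ} (hm : 0 < m)
    (β : Module.Basis (Fin (2 * m)) (ZMod q) K)
    (hev : ∀ 𝔓 : HeightOneSpectrum (𝓞 L), (q : 𝓞 L) ∈ 𝔓.asIdeal → 𝔓 ≠ 𝔔 → Ev 𝔓 c)
    (hod : ¬ Ev 𝔔 c) :
    HV ((Matrix.of fun i j => Algebra.trace ℚ L (b i * b j * c)).map (Rat.castHom ℚ_[q]))
      (if Sq1 𝔔 ((q : L) * c) then -1 else 1) := by
  classical
  have hq2 : q ≠ 2 := by rintro rfl; norm_num at hq4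
  have hq0 : (q : 𝓞 L) ≠ 0 := by exact_mod_cast hq.out.ne_zero
  have hqL : (q : L) ≠ 0 := by exact_mod_cast hq.out.ne_zero
  obtain ⟨z, s, hs, hz, hv⟩ := reduce (L := L) hq.out hc
    (fun 𝔓 => if 𝔓 = 𝔔 then exp (-1 : ℤ) else 1) (by
      intro 𝔓
      split_ifs
      · rw [← exp_zero, exp_le_exp]
        norm_num
      · exact le_rfl) (by
      intro 𝔓 h𝔓
      by_cases h1 : 𝔓 = 𝔔
      · subst h1
        obtain ⟨a, ha⟩ := odd_val hc hod
        obtain ⟨y, hy0, hy⟩ := exists_val 𝔓 (a + 1)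
        refine ⟨y, hy0, ?_⟩
        rw [if_pos rfl, ha, hy, sq, ← exp_add, ← exp_add]
        congr 1
        ring
      · obtain ⟨y, hy⟩ := hev 𝔓 h𝔓 h1
        refine ⟨y, ?_, by rw [hy, if_neg h1, mul_one]⟩
        rintro rfl
        rw [map_zero, zero_pow two_ne_zero] at hy
        exact hc ((Valuation.zero_iff _).1 hy))
  have hvQ : 𝔔.valuation L (z : L) = exp (-1 : ℤ) := by rw [hv 𝔔 h𝔔, if_pos rfl]
  have hzQ : z ∈ 𝔔.asIdeal := by
    rw [← 𝔔.valuation_lt_one_iff_mem (K := L)]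
    refine lt_of_eq_of_lt hvQ ?_
    rw [← exp_zero, exp_lt_exp]
    norm_num
  have hzQ2 : z ∉ 𝔔.asIdeal ^ 2 := by
    rw [← 𝔔.intValuation_le_pow_iff_mem]
    have e1 : 𝔔.intValuation z = exp (-1 : ℤ) := by
      rw [← hvQ]
      exact (𝔔.valuation_of_algebraMap z).symm
    rw [e1, exp_le_exp]
    norm_num
  obtain ⟨J, e, hspl⟩ := exists_spl 𝔔 h𝔔 (hun 𝔔)
  have hqJ : (q : 𝓞 L) ∈ J := hspl.right (Ideal.mem_span_singleton_self _)
  obtain ⟨z', hz'⟩ := coprime_mod (J := J) (by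
      rintro rfl
      exact hq0 (Ideal.mem_bot.1 hqJ)) z (by
      intro 𝔓 hle hmem
      have hne : 𝔓 ≠ 𝔔 := by
        rintro rfl
        apply 𝔓.isPrime.ne_top
        rw [Ideal.eq_top_iff_one]
        have e1 : (1 : 𝓞 L) = (1 - e) + e := by ring
        rw [e1]
        exact Ideal.add_mem _ hspl.one (hle hspl.mem)
      have h1 := hv 𝔓 (hle hqJ)
      rw [if_neg hne] at h1
      exact (𝔓.valuation_eq_one_iff_notMem (K := L)).1 h1 hmem)
  obtain ⟨r, x, y, hx, hxb, hy, hw⟩ := exists_qb hspl φ hφ hk β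
  have hφe : φ e = 1 := by
    have h1 := (hk _).2 hspl.one
    rw [map_sub, map_one, sub_eq_zero] at h1
    exact h1.symm
  -- the unit
  obtain ⟨u, hu⟩ := Ideal.mem_span_singleton.1 (hspl.prod hzQ hspl.mem)
  have huQ : u ∉ 𝔔.asIdeal := by
    intro hmem
    apply hzQ2
    have e1 : z = (q : 𝓞 L) * u + z * (1 - e) := by rw [← hu]; ring
    rw [e1, sq]
    exact Ideal.add_mem _ (Ideal.mul_mem_mul h𝔔 hmem) (Ideal.mul_mem_mul hzQ hspl.one)
  have hφu : φ u ≠ 0 := fun h => huQ ((hk _).1 h)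
  choose v hv' using fun i => Ideal.mem_span_singleton.1 (hspl.prod hzQ (hx i))
  have hφv : ∀ i, φ (v i) = φ u * β i := by
    intro i
    have e1 : v i * e = u * x i := by
      have e2 : (q : 𝓞 L) * (v i * e) = (q : 𝓞 L) * (u * x i) := by
        calc (q : 𝓞 L) * (v i * e) = (z * x i) * e := by rw [hv']; ring
          _ = (z * e) * x i := by ring
          _ = _ := by rw [hu]; ring
      exact mul_left_cancel₀ hq0 e2
    have e3 := congrArg φ e1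
    rwa [map_mul, map_mul, hφe, mul_one, hxb] at e3
  have htr : ∀ a : 𝓞 L, Algebra.trace ℤ (𝓞 L) ((q : 𝓞 L) * a) =
      (q : ℤ) * Algebra.trace ℤ (𝓞 L) a := by
    intro a
    have e1 : (q : 𝓞 L) * a = (q : ℤ) • a := by
      rw [zsmul_eq_mul]
      push_cast
      rfl
    rw [e1, map_smul, smul_eq_mul]
  have hqZ : (q : ℤ) ≠ 0 := by exact_mod_cast hq.out.ne_zero
  set V₁ : Matrix (Fin (2 * m)) (Fin (2 * m)) ℤ :=
    Matrix.of fun i j => Algebra.trace ℤ (𝓞 L) (v i * x j) with hV₁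
  set Bm : Matrix (Fin (2 * m)) (Fin r) ℤ :=
    Matrix.of fun i j => Algebra.trace ℤ (𝓞 L) (v i * y j) with hBm
  set V₀ : Matrix (Fin r) (Fin r) ℤ :=
    Matrix.of fun i j => Algebra.trace ℤ (𝓞 L) (z * y i * y j) with hV₀
  have c11 : ∀ i j, (q : ℤ) * V₁ i j = Algebra.trace ℤ (𝓞 L) (z * x i * x j) := by
    intro i j
    rw [hV₁, Matrix.of_apply, ← htr, hv']
    congr 1
    ring
  have c12 : ∀ i j, (q : ℤ) * Bm i j = Algebra.trace ℤ (𝓞 L) (z * x i * y j) := by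
    intro i j
    rw [hBm, Matrix.of_apply, ← htr, hv']
    congr 1
    ring
  have hV₁s : V₁.IsSymm := by
    ext i j
    rw [Matrix.transpose_apply]
    apply mul_left_cancel₀ hqZ
    rw [c11, c11, mul_right_comm]
  have hV₀s : V₀.IsSymm := by
    ext i j
    rw [Matrix.transpose_apply, hV₀, Matrix.of_apply, Matrix.of_apply, mul_right_comm]
  have hd₀ := det_V0 (q := q) hun hspl hx hy hw z z' hz'
  have hdet : ((V₁.det : ℤ) : ZMod q) =
      (Matrix.of fun i j => Algebra.trace (ZMod q) K (φ u * β i * β j)).det := by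
    have e1 := (Int.castRingHom (ZMod q)).map_det V₁
    have e2 : ((V₁.det : ℤ) : ZMod q) = Int.castRingHom (ZMod q) V₁.det := rfl
    rw [e2, e1]
    congr 1
    ext i j
    rw [RingHom.mapMatrix_apply, Matrix.map_apply, Matrix.of_apply, hV₁, Matrix.of_apply]
    have e3 := trace_res hspl φ hk β hxb hy hw (a := v i * x j) (J.mul_mem_left _ (hx j))
    rw [map_mul φ, hφv, hxb] at e3
    exact e3
  have h2z : (2 : ZMod q) ≠ 0 := by
    intro h
    have h3 : ((2 : ℕ) : ZMod q) = 0 := by exact_mod_cast h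
    rw [ZMod.natCast_eq_zero_iff] at h3
    exact hq2 ((Nat.prime_dvd_prime_iff_eq hq.out Nat.prime_two).1 h3)
  obtain ⟨hf1, hf2⟩ := ffd (ZMod q) K m β (φ u) hm h2z hφu
  rw [← hdet] at hf1 hf2
  have hd₁ : ¬ (q : ℤ) ∣ V₁.det := by
    rwa [Ne, ZMod.intCast_zmod_eq_zero_iff_dvd] at hf1
  have hblock := hv_block (q := q) hq4 (even_two_mul m) V₁ Bm V₀ hV₁s hV₀s hd₁ hd₀
  -- the square class
  have hvq : 𝔔.valuation L ((q : L)) = exp (-1 : ℤ) := by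
    have e1 : (q : L) = algebraMap (𝓞 L) L (q : 𝓞 L) := by rw [map_natCast]
    have e2 : 𝔔.valuation L (algebraMap (𝓞 L) L (q : 𝓞 L)) = 𝔔.intValuation (q : 𝓞 L) :=
      𝔔.valuation_of_algebraMap _
    have h0 : 𝔔.valuation L ((q : L)) ≠ 0 := (Valuation.ne_zero_iff _).mpr hqL
    rw [e1, e2] at h0 ⊢
    have e3 : ¬ 𝔔.intValuation (q : 𝓞 L) ≤ exp (-((2 : ℕ) : ℤ)) := by
      rw [𝔔.intValuation_le_pow_iff_mem]
      exact hun 𝔔
    have e4 : 𝔔.intValuation (q : 𝓞 L) ≤ exp (-((1 : ℕ) : ℤ)) := by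
      rw [𝔔.intValuation_le_pow_iff_mem, pow_one]
      exact h𝔔
    obtain ⟨n, hn⟩ : ∃ n : ℤ, 𝔔.intValuation (q : 𝓞 L) = exp n :=
      ⟨log (𝔔.intValuation (q : 𝓞 L)), (exp_log h0).symm⟩
    rw [hn, exp_le_exp] at e3 e4
    rw [hn]
    congr 1
    push_cast at e3 e4
    omega
  have hsq : Sq1 𝔔 ((q : L) * c) ↔ IsSquare (φ u) := by
    rw [← sq1_psi hφ hk huQ]
    have e1 : (z : L) / q = (q : L) * c * (s / q) ^ 2 := by
      rw [hz]
      field_simp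
    have e2 : Sq1 𝔔 ((q : L) * c) ↔ Sq1 𝔔 ((z : L) / q) := by
      rw [e1, sq1_mul_sq (div_ne_zero hs hqL)]
    rw [e2]
    have e3 : algebraMap (𝓞 L) L u = (z : L) / q * (e : L) := by
      have e4 := congrArg (algebraMap (𝓞 L) L) hu
      rw [map_mul, map_mul, map_natCast] at e4
      field_simp
      linear_combination -e4
    have hzq : 𝔔.valuation L ((z : L) / q) = 1 := by
      rw [map_div₀, hvQ, hvq, div_self exp_ne_zero]
    have h1e : 𝔔.valuation L (1 - (e : L)) < 1 := by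
      have e5 : 1 - (e : L) = algebraMap (𝓞 L) L (1 - e) := by rw [map_sub, map_one]
      rw [e5, 𝔔.valuation_lt_one_iff_mem]
      exact hspl.one
    have hdiff : 𝔔.valuation L (algebraMap (𝓞 L) L u - (z : L) / q) < 1 := by
      have e6 : algebraMap (𝓞 L) L u - (z : L) / q = -((z : L) / q * (1 - (e : L))) := by
        rw [e3]
        ring
      rw [e6, Valuation.map_neg, map_mul, hzq, one_mul]
      exact h1e
    have hvu : 𝔔.valuation L (algebraMap (𝓞 L) L u) = 1 :=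
      𝔔.valuation_eq_one_iff_notMem.mpr huQ
    constructor
    · exact sq1_congr (by rw [hzq]; exact hdiff)
    · refine sq1_congr ?_
      rw [hvu, Valuation.map_sub_swap]
      exact hdiff
  have hε : (if Sq1 𝔔 ((q : L) * c) then (-1 : ℤ) else 1) =
      if IsSquare ((V₁.det : ℤ) : ZMod q) then 1 else -1 := by
    by_cases h5 : IsSquare (φ u)
    · rw [if_pos (hsq.2 h5), if_neg]
      exact fun h6 => hf2.1 h6 h5
    · rw [if_neg (fun h6 => h5 (hsq.1 h6)), if_pos (hf2.2 h5)]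
  obtain ⟨B, hB⟩ := hw.basis hq.out
  rw [hε]
  refine hv_of_gram B hB ?_ b hs hz
  convert hblock using 2
  ext i j
  rcases i with i | i <;> rcases j with j | j
  · exact (c11 i j).symm
  · exact (c12 i j).symm
  · show Algebra.trace ℤ (𝓞 L) (z * y i * x j) = (q : ℤ) * Bm j i
    rw [c12, mul_right_comm]
  · rfl

end main

open scoped Classical in
theorem tfq0 : Pool.Agent.N783.PF.S_TFQ := by
  intro L _ _ q hq hq4 hun ι _ b c hc 𝔔 h𝔔 hcard hev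
  by_cases hE : Ev 𝔔 c
  · rw [if_neg (by tauto)]
    refine case_even hq4 hun b hc fun 𝔓 h𝔓 => ?_
    by_cases h1 : 𝔓 = 𝔔
    · rw [h1]; exact hE
    · exact hev 𝔓 h𝔓 h1
  obtain ⟨m, hm⟩ := hcard
  have hmax := 𝔔.isMaximal
  letI : Field (𝓞 L ⧸ 𝔔.asIdeal) := Ideal.Quotient.field 𝔔.asIdeal
  have hfin : Finite (𝓞 L ⧸ 𝔔.asIdeal) := Ring.HasFiniteQuotients.finiteQuotient 𝔔.ne_bot
  have hchar : CharP (𝓞 L ⧸ 𝔔.asIdeal) q := by
    rw [CharP.charP_iff_prime_eq_zero hq.out]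
    have h1 := Ideal.Quotient.eq_zero_iff_mem.2 h𝔔
    rwa [map_natCast] at h1
  letI : Algebra (ZMod q) (𝓞 L ⧸ 𝔔.asIdeal) := ZMod.algebra _ q
  have hfr : Module.finrank (ZMod q) (𝓞 L ⧸ 𝔔.asIdeal) = 2 * m := by
    have h1 := Module.natCard_eq_pow_finrank (K := ZMod q) (V := 𝓞 L ⧸ 𝔔.asIdeal)
    rw [hm, Nat.card_zmod] at h1
    exact (Nat.pow_right_injective hq.out.two_le h1).symm
  have hm0 : 0 < m := by
    rcases Nat.eq_zero_or_pos m with h | h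
    · exfalso
      rw [h, mul_zero] at hfr
      exact absurd hfr (Module.finrank_pos (R := ZMod q)).ne'
    · exact h
  have h1 := case_odd (q := q) hq4 hun b hc 𝔔 h𝔔 (Ideal.Quotient.mk 𝔔.asIdeal)
    Ideal.Quotient.mk_surjective (fun a => Ideal.Quotient.eq_zero_iff_mem) hm0
    (Module.finBasisOfFinrankEq _ _ hfr) hev hE
  have e1 : (if ¬ Ev 𝔔 c ∧ Sq1 𝔔 ((q : L) * c) then (-1 : ℤ) else 1) =
      if Sq1 𝔔 ((q : L) * c) then (-1 : ℤ) else 1 := by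
    by_cases h2 : Sq1 𝔔 ((q : L) * c)
    · rw [if_pos ⟨hE, h2⟩, if_pos h2]
    · rw [if_neg (fun h3 => h2 h3.2), if_neg h2]
  rw [e1]
  exact h1

theorem tfq (h1 : Pool.Agent.N783.PF.S_FFD) (h2 : Pool.Agent.N783.PF.S_HVG) :
    Pool.Agent.N783.PF.S_TFQ := tfq0

end Pool.Agent.N545.PF
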